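import Pool.Agent.HE996.Ext

set_option autoImplicit false

/-!
# Symmetric cocyclic Hadamard matrices
-/

namespace Pool.Agent.HE996

/-- the underlying set of the extension of `G` by `{1, -1}` -/
@[ext] structure XE (G : Type*) where
  /-- the component in `G` -/
  g : G
  /-- the sign -/
  a : ℤˣ

/-- `XE G` is `G × ℤˣ` as a set -/
def XE.equiv (G : Type*) : XE G ≃ G × ℤˣ where
  toFun x := (x.g, x.a)
  invFun x := ⟨x.1, x.2⟩
  left_inv _ := rfl
  right_inv _ := rfl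

instance (G : Type*) [Fintype G] : Fintype (XE G) := Fintype.ofEquiv _ (XE.equiv G).symm

theorem XE.card (G : Type*) [Fintype G] : Fintype.card (XE G) = 2 * Fintype.card G := by
  rw [Fintype.card_congr (XE.equiv G), Fintype.card_prod, mul_comm]
  rfl

section

variable {G : Type*} [CommGroup G] (ψ : G → G → ℤˣ) (h1 : ∀ g, ψ 1 g = 1)
  (hs : ∀ g h, ψ g h = ψ h g) (hc : ∀ g h k, ψ g h * ψ (g * h) k = ψ g (h * k) * ψ h k)

/-- the group structure given by a symmetric cocycle -/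
@[reducible] def extGroup : CommGroup (XE G) where
  mul x y := ⟨x.g * y.g, x.a * y.a * ψ x.g y.g⟩
  one := ⟨1, 1⟩
  inv x := ⟨x.g⁻¹, x.a * ψ x.g x.g⁻¹⟩
  mul_assoc x y z := by
    refine XE.ext (mul_assoc _ _ _) ?_
    change x.a * y.a * ψ x.g y.g * z.a * ψ (x.g * y.g) z.g =
      x.a * (y.a * z.a * ψ y.g z.g) * ψ x.g (y.g * z.g)
    calc x.a * y.a * ψ x.g y.g * z.a * ψ (x.g * y.g) z.g
        = x.a * y.a * z.a * (ψ x.g y.g * ψ (x.g * y.g) z.g) := by
          simp only [mul_assoc, mul_comm, mul_left_comm]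
      _ = x.a * y.a * z.a * (ψ x.g (y.g * z.g) * ψ y.g z.g) := by rw [hc]
      _ = _ := by simp only [mul_assoc, mul_comm, mul_left_comm]
  one_mul x := by
    refine XE.ext (one_mul _) ?_
    change 1 * x.a * ψ 1 x.g = x.a
    rw [h1, one_mul, mul_one]
  mul_one x := by
    refine XE.ext (mul_one _) ?_
    change x.a * 1 * ψ x.g 1 = x.a
    rw [hs, h1, mul_one, mul_one]
  inv_mul_cancel x := by
    refine XE.ext (inv_mul_cancel _) ?_
    change x.a * ψ x.g x.g⁻¹ * x.a * ψ x.g⁻¹ x.g = 1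
    rw [hs x.g⁻¹ x.g]
    calc x.a * ψ x.g x.g⁻¹ * x.a * ψ x.g x.g⁻¹ =
        (x.a * x.a) * (ψ x.g x.g⁻¹ * ψ x.g x.g⁻¹) := by
          simp only [mul_assoc, mul_comm, mul_left_comm]
      _ = 1 := by rw [Int.units_mul_self, Int.units_mul_self, one_mul]
  mul_comm x y := by
    refine XE.ext (mul_comm _ _) ?_
    change x.a * y.a * ψ x.g y.g = y.a * x.a * ψ y.g x.g
    rw [hs x.g y.g, mul_comm x.a y.a]

end

/-- **Main theorem**, multiplicative version with unit-valued cocycles. -/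
theorem main_units {G : Type*} [CommGroup G] [Fintype G] (p r m : ℕ) [hp : Fact p.Prime]
    (hp2 : p ≠ 2) (g₀ : G) (hg₀ : orderOf g₀ = p ^ (r + 1))
    (hcard : Fintype.card G = p ^ (r + 1) * m) (hm : ¬ p ∣ m)
    (ψ : G → G → ℤˣ) (h1 : ∀ g, ψ 1 g = 1)
    (hs : ∀ g h, ψ g h = ψ h g) (hc : ∀ g h k, ψ g h * ψ (g * h) k = ψ g (h * k) * ψ h k)
    (hH : ∀ g, g ≠ 1 → ∑ k : G, ((ψ g k : ℤˣ) : ℤ) = 0) :
    1 ≤ r ∧ p < m ∧ ∀ k, ¬ ∀ g : G, ¬ p ∣ orderOf g → 2 * orderOf g ∣ p ^ k + 1 := by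
  classical
  letI : CommGroup (XE G) := extGroup ψ h1 hs hc
  have hmul : ∀ x y : XE G, x * y = ⟨x.g * y.g, x.a * y.a * ψ x.g y.g⟩ := fun _ _ => rfl
  have hone : (1 : XE G) = ⟨1, 1⟩ := rfl
  -- the projection
  let π : XE G →* G := { toFun := XE.g, map_one' := rfl, map_mul' := fun _ _ => rfl }
  have hker2 : ∀ x : XE G, x.g = 1 → x ^ 2 = 1 := by
    intro x hx
    rw [sq, hmul, hone, hx, h1, mul_one, mul_one, Int.units_mul_self]
  have hpodd := hp.out.odd_of_ne_two hp2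
  -- a lift of `g₀`
  set x₀ : XE G := (⟨g₀, 1⟩ : XE G) ^ 2 with hx₀
  have hx₀ord : orderOf x₀ = p ^ (r + 1) := by
    apply Nat.dvd_antisymm
    · apply orderOf_dvd_of_pow_eq_one
      rw [hx₀, ← pow_mul, mul_comm, pow_mul]
      apply hker2
      have : π ((⟨g₀, 1⟩ : XE G) ^ (p ^ (r + 1))) = 1 := by
        rw [map_pow]
        change g₀ ^ (p ^ (r + 1)) = 1
        rw [← hg₀]; exact pow_orderOf_eq_one _
      exact this
    · have h2 : orderOf (π x₀) ∣ orderOf x₀ := orderOf_map_dvd π x₀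
      have h3 : π x₀ = g₀ ^ 2 := by rw [hx₀, map_pow]; rfl
      have h4 : orderOf (g₀ ^ 2) = orderOf g₀ := by
        apply Nat.Coprime.orderOf_pow
        rw [hg₀]
        exact Nat.Coprime.pow_left _ ((Nat.coprime_primes hp.out Nat.prime_two).2 hp2)
      rw [h3, h4, hg₀] at h2
      exact h2
  have hcardE : Fintype.card (XE G) = p ^ (r + 1) * (2 * m) := by
    rw [XE.card, hcard]; ring
  have h2m : ¬ p ∣ 2 * m := by
    rw [hp.out.dvd_mul]
    rintro (h | h)
    · exact hp2 ((Nat.prime_dvd_prime_iff_eq hp.out Nat.prime_two).1 h)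
    · exact hm h
  have hneg : ((⟨1, -1⟩ : XE G)) ≠ 1 := by
    rw [hone]
    intro h
    have h2 : (-1 : ℤˣ) = 1 := congrArg XE.a h
    exact absurd h2 (by decide)
  have key := main_E (E := XE G) p r (2 * m) hp2 x₀ hx₀ord hcardE h2m ⟨1, -1⟩ hneg (by
      rw [hmul, hone, h1]; simp) (fun x => ((x.a : ℤˣ) : ℤ)) (by
      intro x
      rcases Int.units_eq_one_or x.a with h | h <;> simp [h]) (by
      intro x
      rw [hmul]
      simp [h1]) (by
      rintro ⟨h, b⟩ hy1 hy2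
      have hh : h ≠ 1 := by
        rintro rfl
        rcases Int.units_eq_one_or b with hb | hb
        · apply hy1; rw [hb, hone]
        · apply hy2; rw [hb]
      have h3 : ∑ x : XE G, ((x.a : ℤˣ) : ℤ) * (((x * ⟨h, b⟩ : XE G).a : ℤˣ) : ℤ) =
          ∑ x : G × ℤˣ, ((b : ℤˣ) : ℤ) * ((ψ h x.1 : ℤˣ) : ℤ) := by
        rw [← Equiv.sum_comp (XE.equiv G).symm]
        apply Finset.sum_congr rfl
        rintro ⟨g, a⟩ _
        rw [hmul]
        change ((a : ℤˣ) : ℤ) * ((a * b * ψ g h : ℤˣ) : ℤ) = ((b : ℤˣ) : ℤ) * ((ψ h g : ℤˣ) : ℤ)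
        rw [hs g h]
        push_cast
        have h5 : ((a : ℤˣ) : ℤ) * ((a : ℤˣ) : ℤ) = 1 := by
          rcases Int.units_eq_one_or a with ha | ha <;> simp [ha]
        linear_combination ((b : ℤˣ) : ℤ) * ((ψ h g : ℤˣ) : ℤ) * h5
      rw [h3, Fintype.sum_prod_type]
      simp only [Finset.sum_const, nsmul_eq_mul]
      rw [← Finset.mul_sum, ← Finset.mul_sum, hH h hh, mul_zero, mul_zero])
  obtain ⟨k1, k2, k3⟩ := key
  refine ⟨k1, by omega, ?_⟩
  intro k hk
  apply k3 k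
  intro x hx
  have h2 : π x ^ (2 * m) = 1 := by rw [← map_pow, hx, map_one]
  have h3 : ¬ p ∣ orderOf (π x) := by
    intro h4
    exact h2m (dvd_trans h4 (orderOf_dvd_of_pow_eq_one h2))
  have h4 := hk _ h3
  have h5 : x ^ (2 * orderOf (π x)) = 1 := by
    rw [mul_comm, pow_mul]
    apply hker2
    have : π (x ^ orderOf (π x)) = 1 := by rw [map_pow]; exact pow_orderOf_eq_one _
    exact this
  have h6 : x ^ (p ^ k + 1) = 1 := by
    obtain ⟨w, hw⟩ := h4
    rw [hw, pow_mul, h5, one_pow]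
  rw [pow_succ] at h6
  exact eq_inv_of_mul_eq_one_left h6

/-- **Main theorem**, additive version with integer-valued cocycles. -/
theorem main_int {G : Type*} [AddCommGroup G] [Fintype G] [DecidableEq G] (p r m : ℕ)
    [hp : Fact p.Prime]
    (hp2 : p ≠ 2) (g₀ : G) (hg₀ : addOrderOf g₀ = p ^ (r + 1))
    (hcard : Fintype.card G = p ^ (r + 1) * m) (hm : ¬ p ∣ m)
    (ψ : G → G → ℤ) (hψ : ∀ g h, ψ g h = 1 ∨ ψ g h = -1) (h0 : ψ 0 0 = 1)
    (hs : ∀ g h, ψ g h = ψ h g) (hc : ∀ g h k, ψ g h * ψ (g + h) k = ψ g (h + k) * ψ h k)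
    (N : ℤ) (hM : Matrix.of ψ * Matrix.transpose (Matrix.of ψ) = N • (1 : Matrix G G ℤ)) :
    1 ≤ r ∧ p < m ∧ ∀ k, ¬ ∀ g : G, ¬ p ∣ addOrderOf g → 2 * addOrderOf g ∣ p ^ k + 1 := by
  classical
  -- row `0` is constant
  have hsq : ∀ g h, ψ g h * ψ g h = 1 := by
    intro g h
    rcases hψ g h with h | h <;> rw [h] <;> norm_num
  have h1 : ∀ g, ψ 0 g = 1 := by
    intro g
    have h2 := hc 0 0 g
    rw [add_zero, zero_add, h0, one_mul, hsq] at h2
    exact h2
  let u : G → G → ℤˣ := fun g h => if ψ g h = 1 then 1 else -1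
  have hu : ∀ g h, ((u g h : ℤˣ) : ℤ) = ψ g h := by
    intro g h
    simp only [u]
    rcases hψ g h with h | h <;> rw [h] <;> simp
  have huinj : ∀ a b : ℤˣ, (a : ℤ) = (b : ℤ) → a = b := fun a b h => Units.ext h
  have key := main_units (G := Multiplicative G) p r m hp2 (Multiplicative.ofAdd g₀)
    (by rw [orderOf_ofAdd_eq_addOrderOf]; exact hg₀)
    (by rw [← hcard]; exact Fintype.card_multiplicative G) hm
    (fun g h => u g.toAdd h.toAdd)
    (by intro g; apply huinj; rw [hu, toAdd_one, h1]; rfl)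
    (by intro g h; apply huinj; rw [hu, hu, hs])
    (by
      intro g h k
      apply huinj
      push_cast
      rw [hu, hu, hu, hu, toAdd_mul, toAdd_mul, hc])
    (by
      intro g hg
      have hg' : g.toAdd ≠ 0 := by
        intro h; apply hg; exact toAdd_eq_zero.1 h
      have h2 := congrFun (congrFun hM g.toAdd) 0
      rw [Matrix.mul_apply, Matrix.smul_apply, Matrix.one_apply_ne hg', smul_zero] at h2
      have h3 : ∑ k : Multiplicative G, ((u g.toAdd k.toAdd : ℤˣ) : ℤ) =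
          ∑ j : G, ψ g.toAdd j := by
        apply Fintype.sum_equiv Multiplicative.toAdd
        intro k
        rw [hu]
      rw [h3, ← h2]
      apply Finset.sum_congr rfl
      intro j _
      rw [Matrix.transpose_apply, Matrix.of_apply, Matrix.of_apply, h1, mul_one])
  obtain ⟨k1, k2, k3⟩ := key
  refine ⟨k1, k2, ?_⟩
  intro k hk
  apply k3 k
  intro g hg
  have h4 := hk g.toAdd
  rw [← orderOf_ofAdd_eq_addOrderOf] at h4
  exact h4 hg

end Pool.Agent.HE996
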