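import Mathlib

set_option autoImplicit false

/-!
# Group rings of a cyclic `p`-group over a ring in which `p` is unramified
-/

namespace Pool.Agent.HE996

section Poly
open Polynomial

/-- `(X - 1) ^ φ(p ^ (r+1))` is the cyclotomic polynomial of order `p ^ (r+1)` modulo `p`. -/
theorem polyK (p r : ℕ) [hp : Fact p.Prime] :
    ∃ K : ℤ[X], (X - 1) ^ (p ^ r * (p - 1)) =
      (∑ i ∈ Finset.range p, (X ^ (p ^ r)) ^ i) + C (p : ℤ) * K ∧ K.eval 1 = -1 := by
  have hp1 := hp.out.one_lt
  have key : ((X - 1 : (ZMod p)[X]) ^ (p ^ r * (p - 1))) =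
      ∑ i ∈ Finset.range p, (X ^ (p ^ r)) ^ i := by
    have h1 : (X - 1 : (ZMod p)[X]) ^ (p ^ r) = X ^ (p ^ r) - 1 := by
      rw [sub_pow_char_pow, one_pow]
    rw [pow_mul, h1]
    set Y : (ZMod p)[X] := X ^ (p ^ r) with hY
    have hne : Y - 1 ≠ 0 := by
      rw [hY, ← h1]
      exact pow_ne_zero _ (by simpa using X_sub_C_ne_zero (1 : ZMod p))
    apply mul_left_cancel₀ hne
    have h2 : (Y - 1) * (Y - 1) ^ (p - 1) = (Y - 1) ^ p := by
      rw [← pow_succ']
      congr 1
      omega
    rw [h2, sub_pow_char, one_pow, mul_comm, geom_sum_mul]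
  have hdvd : C (p : ℤ) ∣ (X - 1 : ℤ[X]) ^ (p ^ r * (p - 1)) -
      ∑ i ∈ Finset.range p, (X ^ (p ^ r)) ^ i := by
    rw [C_dvd_iff_dvd_coeff]
    intro n
    rw [← ZMod.intCast_zmod_eq_zero_iff_dvd]
    have h5 := congrArg (fun P : (ZMod p)[X] => P.coeff n) key
    have h6 : (((((X - 1 : ℤ[X]) ^ (p ^ r * (p - 1)) -
      ∑ i ∈ Finset.range p, (X ^ (p ^ r)) ^ i).coeff n : ℤ)) : ZMod p) =
      ((((X - 1 : ℤ[X]) ^ (p ^ r * (p - 1)) -
      ∑ i ∈ Finset.range p, (X ^ (p ^ r)) ^ i).map (Int.castRingHom (ZMod p))).coeff n) := by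
      rw [coeff_map]; rfl
    rw [h6]
    rw [Polynomial.map_sub, Polynomial.map_pow, Polynomial.map_sub, Polynomial.map_X,
      Polynomial.map_one, Polynomial.map_sum]
    simp only [Polynomial.map_pow, Polynomial.map_X]
    rw [key, sub_self, coeff_zero]
  obtain ⟨K, hK⟩ := hdvd
  refine ⟨K, by rw [← hK]; ring, ?_⟩
  have h3 := congrArg (eval 1) hK
  have h4 : p ^ r * (p - 1) ≠ 0 := by
    have : 0 < p ^ r := pow_pos (by omega) _
    have : 0 < p - 1 := by omega
    positivity
  rw [eval_sub, eval_pow, eval_sub, eval_X, eval_one, sub_self, zero_pow h4, eval_mul, eval_C,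
    eval_finsetSum] at h3
  simp only [eval_pow, eval_X, one_pow, Finset.sum_const, Finset.card_range, nsmul_eq_mul,
    mul_one] at h3
  have h7 : (p : ℤ) ≠ 0 := by exact_mod_cast hp.out.ne_zero
  have h8 : (p : ℤ) * (eval 1 K) = p * (-1) := by rw [← h3]; ring
  exact mul_left_cancel₀ h7 h8

end Poly

section Aug

variable (R G : Type*) [CommRing R] [CommGroup G]

/-- augmentation -/
noncomputable def aug : MonoidAlgebra R G →+* R :=
  (MonoidAlgebra.lift R R G (1 : G →* R)).toRingHom

variable {R G}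

@[simp] theorem aug_single (g : G) (r : R) : aug R G (MonoidAlgebra.single g r) = r := by
  have := MonoidAlgebra.lift_single (R := R) (A := R) (M := G) (1 : G →* R) g r
  simpa [aug] using this

/-- the group element `g` as an element of the group ring -/
noncomputable def el (R : Type*) {G : Type*} [CommRing R] [CommGroup G] (g : G) :
    MonoidAlgebra R G := MonoidAlgebra.single g 1

@[simp] theorem aug_el (g : G) : aug R G (el R g) = 1 := aug_single g 1

theorem el_pow (g : G) (n : ℕ) : el R (g ^ n) = el R g ^ n := by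
  unfold el; rw [MonoidAlgebra.single_pow, one_pow]

theorem el_one : el R (1 : G) = 1 := rfl

theorem single_eq (g : G) (r : R) :
    (MonoidAlgebra.single g r : MonoidAlgebra R G) = MonoidAlgebra.single 1 r * el R g := by
  unfold el; rw [MonoidAlgebra.single_mul_single]; simp

/-- an element of the group ring of a cyclic group is its augmentation modulo `c - 1` -/
theorem aug_dvd (c : G) (hgen : ∀ g : G, ∃ k : ℕ, c ^ k = g) (w : MonoidAlgebra R G) :
    el R c - 1 ∣ w - MonoidAlgebra.single 1 (aug R G w) := by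
  induction w using MonoidAlgebra.induction_linear with
  | zero => simp
  | add x y hx hy =>
    have : x + y - MonoidAlgebra.single 1 (aug R G (x + y)) =
      (x - MonoidAlgebra.single 1 (aug R G x)) + (y - MonoidAlgebra.single 1 (aug R G y)) := by
      rw [map_add, MonoidAlgebra.single_add]; ring
    rw [this]
    exact dvd_add hx hy
  | single m r =>
    obtain ⟨k, rfl⟩ := hgen m
    rw [aug_single, single_eq, el_pow]
    have : MonoidAlgebra.single 1 r * el R c ^ k - MonoidAlgebra.single (1 : G) r =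
      MonoidAlgebra.single 1 r * (el R c ^ k - 1) := by ring
    rw [this]
    exact Dvd.dvd.mul_left (by simpa using sub_dvd_pow_sub_pow (el R c) 1 k) _

end Aug

section Local

variable {F G : Type*} [CommRing F] [IsDomain F] [CommGroup G] (p : ℕ) [hp : Fact p.Prime]
  [CharP F p]

include hp in
theorem charP_alg : CharP (MonoidAlgebra F G) p := by
  have : Function.Injective (MonoidAlgebra.singleOneRingHom : F →+* MonoidAlgebra F G) := by
    intro a b h
    exact MonoidAlgebra.single_right_injective h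
  exact charP_of_injective_ringHom this p

include hp in
/-- the `q`-th power of an element is constant if `q = |G|` is a power of the characteristic -/
theorem pow_card_eq (q r : ℕ) (hq : q = p ^ r) (hG : ∀ g : G, g ^ q = 1)
    (w : MonoidAlgebra F G) :
    w ^ q = MonoidAlgebra.single 1 ((aug F G w) ^ q) := by
  haveI := charP_alg (F := F) (G := G) p
  have hq0 : q ≠ 0 := by rw [hq]; exact pow_ne_zero _ hp.out.ne_zero
  induction w using MonoidAlgebra.induction_linear with
  | zero => simp [hq0]
  | add x y hx hy =>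
    have h1 : (x + y) ^ q = x ^ q + y ^ q := by rw [hq, add_pow_char_pow]
    have h2 : (aug F G (x + y)) ^ q = (aug F G x) ^ q + (aug F G y) ^ q := by
      rw [map_add, hq, add_pow_char_pow]
    rw [h1, h2, hx, hy, MonoidAlgebra.single_add]
  | single m r =>
    rw [MonoidAlgebra.single_pow, hG, aug_single]

include hp in
theorem eq_zero_of_aug (q r : ℕ) (hq : q = p ^ r) (hG : ∀ g : G, g ^ q = 1)
    (B w : MonoidAlgebra F G) (hB : aug F G B ≠ 0) (h : B * w = 0) : w = 0 := by
  have hq0 : q ≠ 0 := by rw [hq]; exact pow_ne_zero _ hp.out.ne_zero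
  have h1 : B ^ q * w = 0 := by
    obtain ⟨k, rfl⟩ := Nat.exists_eq_succ_of_ne_zero hq0
    rw [pow_succ, mul_assoc, h, mul_zero]
  rw [pow_card_eq p q r hq hG] at h1
  ext g
  have h2 := congrArg (fun z : MonoidAlgebra F G => z.coeff g) h1
  simp only [MonoidAlgebra.coeff_single_one_mul, MonoidAlgebra.coeff_zero, Finsupp.coe_zero,
    Pi.zero_apply] at h2
  rcases mul_eq_zero.1 h2 with h3 | h3
  · exact absurd h3 (pow_ne_zero _ hB)
  · simpa using h3

include hp in
/-- `f = (c - 1) ^ a * U` with `U` of nonzero augmentation -/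
theorem factor (q r : ℕ) (hq : q = p ^ r) (c : G) (hc : c ^ q = 1)
    (hgen : ∀ g : G, ∃ k : ℕ, c ^ k = g)
    (f : MonoidAlgebra F G) (hf : f ≠ 0) :
    ∃ (a : ℕ) (U : MonoidAlgebra F G), a < q ∧ f = (el F c - 1) ^ a * U ∧ aug F G U ≠ 0 := by
  haveI := charP_alg (F := F) (G := G) p
  have hnil : (el F c - 1) ^ q = 0 := by
    rw [hq, sub_pow_char_pow, one_pow, ← el_pow, ← hq, hc, el_one, sub_self]
  have key : ∀ n : ℕ, (el F c - 1) ^ n ∣ f ∨
      ∃ (a : ℕ) (U : MonoidAlgebra F G), a < n ∧ f = (el F c - 1) ^ a * U ∧ aug F G U ≠ 0 := by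
    intro n
    induction n with
    | zero => left; simp
    | succ n ih =>
      rcases ih with ⟨U, hU⟩ | ⟨a, U, ha, h1, h2⟩
      · by_cases h0 : aug F G U = 0
        · left
          have := aug_dvd c hgen U
          rw [h0, MonoidAlgebra.single_zero, sub_zero] at this
          obtain ⟨V, hV⟩ := this
          exact ⟨V, by rw [hU, hV]; ring⟩
        · right; exact ⟨n, U, Nat.lt_succ_self n, hU, h0⟩
      · right; exact ⟨a, U, by omega, h1, h2⟩
  rcases key q with ⟨U, hU⟩ | h
  · exact absurd (by rw [hU, hnil, zero_mul]) hf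
  · exact h

end Local

end Pool.Agent.HE996
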