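import Pool.Agent.HE996.Cocycle

set_option autoImplicit false

/-!
# The criterion for `ℤ₂² × ℤₜ`
-/

namespace Pool.Agent.HE996

/-- the criterion -/
def Good (t : ℕ) : Prop := ∃ p s m : ℕ, p.Prime ∧ t = p ^ s * m ∧ ¬ p ∣ m ∧ 1 ≤ s ∧
  (s = 1 ∨ 4 * m < p ∨ ∃ k, 4 * m ∣ p ^ k + 1)

theorem good_of_primePow (t : ℕ) (hodd : Odd t) (h : IsPrimePow t) : Good t := by
  obtain ⟨p, s, hp, hs, rfl⟩ := (isPrimePow_nat_iff _).1 h
  have hp2 : p ≠ 2 := by
    rintro rfl
    rw [Nat.odd_pow_iff (by omega)] at hodd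
    exact absurd hodd (by decide)
  refine ⟨p, s, 1, hp, by rw [mul_one], ?_, hs, ?_⟩
  · intro h1
    exact hp.one_lt.ne' (Nat.dvd_one.1 h1)
  · have h3 := hp.two_le
    by_cases h : p = 3
    · right; right
      exact ⟨1, by rw [h]; norm_num⟩
    · right; left
      by_contra h5
      have h6 : p = 4 := by omega
      rw [h6] at hp
      exact absurd hp (by norm_num)

theorem good_of_exact (t p : ℕ) (ht : 0 < t) (hp : p.Prime) (h1 : p ∣ t) (h2 : ¬ p ^ 2 ∣ t) :
    Good t := by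
  obtain ⟨m, rfl⟩ := h1
  refine ⟨p, 1, m, hp, by rw [pow_one], ?_, le_rfl, Or.inl rfl⟩
  intro h3
  apply h2
  rw [sq]
  exact Nat.mul_dvd_mul_left p h3

theorem good_small (t : ℕ) (h1 : 1 < t) (hodd : Odd t) (h2 : t < 225) : Good t := by
  obtain ⟨k, rfl⟩ := hodd
  have hk1 : 1 ≤ k := by omega
  have hk2 : k ≤ 111 := by omega
  interval_cases k
  · exact ⟨3, 1, 1, by norm_num, by norm_num, by norm_num, by norm_num, Or.inl rfl⟩
  · exact ⟨5, 1, 1, by norm_num, by norm_num, by norm_num, by norm_num, Or.inl rfl⟩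
  · exact ⟨7, 1, 1, by norm_num, by norm_num, by norm_num, by norm_num, Or.inl rfl⟩
  · exact ⟨3, 2, 1, by norm_num, by norm_num, by norm_num, by norm_num, Or.inr (Or.inr ⟨1, by norm_num⟩)⟩
  · exact ⟨11, 1, 1, by norm_num, by norm_num, by norm_num, by norm_num, Or.inl rfl⟩
  · exact ⟨13, 1, 1, by norm_num, by norm_num, by norm_num, by norm_num, Or.inl rfl⟩
  · exact ⟨5, 1, 3, by norm_num, by norm_num, by norm_num, by norm_num, Or.inl rfl⟩
  · exact ⟨17, 1, 1, by norm_num, by norm_num, by norm_num, by norm_num, Or.inl rfl⟩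
  · exact ⟨19, 1, 1, by norm_num, by norm_num, by norm_num, by norm_num, Or.inl rfl⟩
  · exact ⟨7, 1, 3, by norm_num, by norm_num, by norm_num, by norm_num, Or.inl rfl⟩
  · exact ⟨23, 1, 1, by norm_num, by norm_num, by norm_num, by norm_num, Or.inl rfl⟩
  · exact ⟨5, 2, 1, by norm_num, by norm_num, by norm_num, by norm_num, Or.inr (Or.inl (by norm_num))⟩
  · exact ⟨3, 3, 1, by norm_num, by norm_num, by norm_num, by norm_num, Or.inr (Or.inr ⟨1, by norm_num⟩)⟩
  · exact ⟨29, 1, 1, by norm_num, by norm_num, by norm_num, by norm_num, Or.inl rfl⟩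
  · exact ⟨31, 1, 1, by norm_num, by norm_num, by norm_num, by norm_num, Or.inl rfl⟩
  · exact ⟨11, 1, 3, by norm_num, by norm_num, by norm_num, by norm_num, Or.inl rfl⟩
  · exact ⟨7, 1, 5, by norm_num, by norm_num, by norm_num, by norm_num, Or.inl rfl⟩
  · exact ⟨37, 1, 1, by norm_num, by norm_num, by norm_num, by norm_num, Or.inl rfl⟩
  · exact ⟨13, 1, 3, by norm_num, by norm_num, by norm_num, by norm_num, Or.inl rfl⟩
  · exact ⟨41, 1, 1, by norm_num, by norm_num, by norm_num, by norm_num, Or.inl rfl⟩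
  · exact ⟨43, 1, 1, by norm_num, by norm_num, by norm_num, by norm_num, Or.inl rfl⟩
  · exact ⟨5, 1, 9, by norm_num, by norm_num, by norm_num, by norm_num, Or.inl rfl⟩
  · exact ⟨47, 1, 1, by norm_num, by norm_num, by norm_num, by norm_num, Or.inl rfl⟩
  · exact ⟨7, 2, 1, by norm_num, by norm_num, by norm_num, by norm_num, Or.inr (Or.inl (by norm_num))⟩
  · exact ⟨17, 1, 3, by norm_num, by norm_num, by norm_num, by norm_num, Or.inl rfl⟩
  · exact ⟨53, 1, 1, by norm_num, by norm_num, by norm_num, by norm_num, Or.inl rfl⟩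
  · exact ⟨11, 1, 5, by norm_num, by norm_num, by norm_num, by norm_num, Or.inl rfl⟩
  · exact ⟨19, 1, 3, by norm_num, by norm_num, by norm_num, by norm_num, Or.inl rfl⟩
  · exact ⟨59, 1, 1, by norm_num, by norm_num, by norm_num, by norm_num, Or.inl rfl⟩
  · exact ⟨61, 1, 1, by norm_num, by norm_num, by norm_num, by norm_num, Or.inl rfl⟩
  · exact ⟨7, 1, 9, by norm_num, by norm_num, by norm_num, by norm_num, Or.inl rfl⟩
  · exact ⟨13, 1, 5, by norm_num, by norm_num, by norm_num, by norm_num, Or.inl rfl⟩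
  · exact ⟨67, 1, 1, by norm_num, by norm_num, by norm_num, by norm_num, Or.inl rfl⟩
  · exact ⟨23, 1, 3, by norm_num, by norm_num, by norm_num, by norm_num, Or.inl rfl⟩
  · exact ⟨71, 1, 1, by norm_num, by norm_num, by norm_num, by norm_num, Or.inl rfl⟩
  · exact ⟨73, 1, 1, by norm_num, by norm_num, by norm_num, by norm_num, Or.inl rfl⟩
  · exact ⟨3, 1, 25, by norm_num, by norm_num, by norm_num, by norm_num, Or.inl rfl⟩
  · exact ⟨11, 1, 7, by norm_num, by norm_num, by norm_num, by norm_num, Or.inl rfl⟩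
  · exact ⟨79, 1, 1, by norm_num, by norm_num, by norm_num, by norm_num, Or.inl rfl⟩
  · exact ⟨3, 4, 1, by norm_num, by norm_num, by norm_num, by norm_num, Or.inr (Or.inr ⟨1, by norm_num⟩)⟩
  · exact ⟨83, 1, 1, by norm_num, by norm_num, by norm_num, by norm_num, Or.inl rfl⟩
  · exact ⟨17, 1, 5, by norm_num, by norm_num, by norm_num, by norm_num, Or.inl rfl⟩
  · exact ⟨29, 1, 3, by norm_num, by norm_num, by norm_num, by norm_num, Or.inl rfl⟩
  · exact ⟨89, 1, 1, by norm_num, by norm_num, by norm_num, by norm_num, Or.inl rfl⟩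
  · exact ⟨13, 1, 7, by norm_num, by norm_num, by norm_num, by norm_num, Or.inl rfl⟩
  · exact ⟨31, 1, 3, by norm_num, by norm_num, by norm_num, by norm_num, Or.inl rfl⟩
  · exact ⟨19, 1, 5, by norm_num, by norm_num, by norm_num, by norm_num, Or.inl rfl⟩
  · exact ⟨97, 1, 1, by norm_num, by norm_num, by norm_num, by norm_num, Or.inl rfl⟩
  · exact ⟨11, 1, 9, by norm_num, by norm_num, by norm_num, by norm_num, Or.inl rfl⟩
  · exact ⟨101, 1, 1, by norm_num, by norm_num, by norm_num, by norm_num, Or.inl rfl⟩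
  · exact ⟨103, 1, 1, by norm_num, by norm_num, by norm_num, by norm_num, Or.inl rfl⟩
  · exact ⟨7, 1, 15, by norm_num, by norm_num, by norm_num, by norm_num, Or.inl rfl⟩
  · exact ⟨107, 1, 1, by norm_num, by norm_num, by norm_num, by norm_num, Or.inl rfl⟩
  · exact ⟨109, 1, 1, by norm_num, by norm_num, by norm_num, by norm_num, Or.inl rfl⟩
  · exact ⟨37, 1, 3, by norm_num, by norm_num, by norm_num, by norm_num, Or.inl rfl⟩
  · exact ⟨113, 1, 1, by norm_num, by norm_num, by norm_num, by norm_num, Or.inl rfl⟩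
  · exact ⟨23, 1, 5, by norm_num, by norm_num, by norm_num, by norm_num, Or.inl rfl⟩
  · exact ⟨13, 1, 9, by norm_num, by norm_num, by norm_num, by norm_num, Or.inl rfl⟩
  · exact ⟨17, 1, 7, by norm_num, by norm_num, by norm_num, by norm_num, Or.inl rfl⟩
  · exact ⟨11, 2, 1, by norm_num, by norm_num, by norm_num, by norm_num, Or.inr (Or.inl (by norm_num))⟩
  · exact ⟨41, 1, 3, by norm_num, by norm_num, by norm_num, by norm_num, Or.inl rfl⟩
  · exact ⟨5, 3, 1, by norm_num, by norm_num, by norm_num, by norm_num, Or.inr (Or.inl (by norm_num))⟩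
  · exact ⟨127, 1, 1, by norm_num, by norm_num, by norm_num, by norm_num, Or.inl rfl⟩
  · exact ⟨43, 1, 3, by norm_num, by norm_num, by norm_num, by norm_num, Or.inl rfl⟩
  · exact ⟨131, 1, 1, by norm_num, by norm_num, by norm_num, by norm_num, Or.inl rfl⟩
  · exact ⟨19, 1, 7, by norm_num, by norm_num, by norm_num, by norm_num, Or.inl rfl⟩
  · exact ⟨5, 1, 27, by norm_num, by norm_num, by norm_num, by norm_num, Or.inl rfl⟩
  · exact ⟨137, 1, 1, by norm_num, by norm_num, by norm_num, by norm_num, Or.inl rfl⟩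
  · exact ⟨139, 1, 1, by norm_num, by norm_num, by norm_num, by norm_num, Or.inl rfl⟩
  · exact ⟨47, 1, 3, by norm_num, by norm_num, by norm_num, by norm_num, Or.inl rfl⟩
  · exact ⟨13, 1, 11, by norm_num, by norm_num, by norm_num, by norm_num, Or.inl rfl⟩
  · exact ⟨29, 1, 5, by norm_num, by norm_num, by norm_num, by norm_num, Or.inl rfl⟩
  · exact ⟨3, 1, 49, by norm_num, by norm_num, by norm_num, by norm_num, Or.inl rfl⟩
  · exact ⟨149, 1, 1, by norm_num, by norm_num, by norm_num, by norm_num, Or.inl rfl⟩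
  · exact ⟨151, 1, 1, by norm_num, by norm_num, by norm_num, by norm_num, Or.inl rfl⟩
  · exact ⟨17, 1, 9, by norm_num, by norm_num, by norm_num, by norm_num, Or.inl rfl⟩
  · exact ⟨31, 1, 5, by norm_num, by norm_num, by norm_num, by norm_num, Or.inl rfl⟩
  · exact ⟨157, 1, 1, by norm_num, by norm_num, by norm_num, by norm_num, Or.inl rfl⟩
  · exact ⟨53, 1, 3, by norm_num, by norm_num, by norm_num, by norm_num, Or.inl rfl⟩
  · exact ⟨23, 1, 7, by norm_num, by norm_num, by norm_num, by norm_num, Or.inl rfl⟩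
  · exact ⟨163, 1, 1, by norm_num, by norm_num, by norm_num, by norm_num, Or.inl rfl⟩
  · exact ⟨11, 1, 15, by norm_num, by norm_num, by norm_num, by norm_num, Or.inl rfl⟩
  · exact ⟨167, 1, 1, by norm_num, by norm_num, by norm_num, by norm_num, Or.inl rfl⟩
  · exact ⟨13, 2, 1, by norm_num, by norm_num, by norm_num, by norm_num, Or.inr (Or.inl (by norm_num))⟩
  · exact ⟨19, 1, 9, by norm_num, by norm_num, by norm_num, by norm_num, Or.inl rfl⟩
  · exact ⟨173, 1, 1, by norm_num, by norm_num, by norm_num, by norm_num, Or.inl rfl⟩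
  · exact ⟨7, 1, 25, by norm_num, by norm_num, by norm_num, by norm_num, Or.inl rfl⟩
  · exact ⟨59, 1, 3, by norm_num, by norm_num, by norm_num, by norm_num, Or.inl rfl⟩
  · exact ⟨179, 1, 1, by norm_num, by norm_num, by norm_num, by norm_num, Or.inl rfl⟩
  · exact ⟨181, 1, 1, by norm_num, by norm_num, by norm_num, by norm_num, Or.inl rfl⟩
  · exact ⟨61, 1, 3, by norm_num, by norm_num, by norm_num, by norm_num, Or.inl rfl⟩
  · exact ⟨37, 1, 5, by norm_num, by norm_num, by norm_num, by norm_num, Or.inl rfl⟩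
  · exact ⟨17, 1, 11, by norm_num, by norm_num, by norm_num, by norm_num, Or.inl rfl⟩
  · exact ⟨7, 1, 27, by norm_num, by norm_num, by norm_num, by norm_num, Or.inl rfl⟩
  · exact ⟨191, 1, 1, by norm_num, by norm_num, by norm_num, by norm_num, Or.inl rfl⟩
  · exact ⟨193, 1, 1, by norm_num, by norm_num, by norm_num, by norm_num, Or.inl rfl⟩
  · exact ⟨13, 1, 15, by norm_num, by norm_num, by norm_num, by norm_num, Or.inl rfl⟩
  · exact ⟨197, 1, 1, by norm_num, by norm_num, by norm_num, by norm_num, Or.inl rfl⟩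
  · exact ⟨199, 1, 1, by norm_num, by norm_num, by norm_num, by norm_num, Or.inl rfl⟩
  · exact ⟨67, 1, 3, by norm_num, by norm_num, by norm_num, by norm_num, Or.inl rfl⟩
  · exact ⟨29, 1, 7, by norm_num, by norm_num, by norm_num, by norm_num, Or.inl rfl⟩
  · exact ⟨41, 1, 5, by norm_num, by norm_num, by norm_num, by norm_num, Or.inl rfl⟩
  · exact ⟨23, 1, 9, by norm_num, by norm_num, by norm_num, by norm_num, Or.inl rfl⟩
  · exact ⟨19, 1, 11, by norm_num, by norm_num, by norm_num, by norm_num, Or.inl rfl⟩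
  · exact ⟨211, 1, 1, by norm_num, by norm_num, by norm_num, by norm_num, Or.inl rfl⟩
  · exact ⟨71, 1, 3, by norm_num, by norm_num, by norm_num, by norm_num, Or.inl rfl⟩
  · exact ⟨43, 1, 5, by norm_num, by norm_num, by norm_num, by norm_num, Or.inl rfl⟩
  · exact ⟨31, 1, 7, by norm_num, by norm_num, by norm_num, by norm_num, Or.inl rfl⟩
  · exact ⟨73, 1, 3, by norm_num, by norm_num, by norm_num, by norm_num, Or.inl rfl⟩
  · exact ⟨17, 1, 13, by norm_num, by norm_num, by norm_num, by norm_num, Or.inl rfl⟩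
  · exact ⟨223, 1, 1, by norm_num, by norm_num, by norm_num, by norm_num, Or.inl rfl⟩

theorem main_t (t : ℕ) [NeZero t] (hodd : Odd t) (hgood : Good t)
    (ψ : (ZMod 2 × ZMod 2 × ZMod t) → (ZMod 2 × ZMod 2 × ZMod t) → ℤ)
    (hψ : ∀ g h, ψ g h = 1 ∨ ψ g h = -1) (h0 : ψ 0 0 = 1)
    (hc : ∀ g h k, ψ g h * ψ (g + h) k = ψ g (h + k) * ψ h k)
    (hM : Matrix.of ψ * Matrix.transpose (Matrix.of ψ) =
      (4 * (t : ℤ)) • (1 : Matrix (ZMod 2 × ZMod 2 × ZMod t) (ZMod 2 × ZMod 2 × ZMod t) ℤ)) :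
    ∃ g h, ψ g h ≠ ψ h g := by
  by_contra hcon
  push Not at hcon
  obtain ⟨p, s, m, hp, ht, hm, hs, hcond⟩ := hgood
  have : Fact p.Prime := ⟨hp⟩
  obtain ⟨r, rfl⟩ : ∃ r, s = r + 1 := ⟨s - 1, by omega⟩
  have hp2 : p ≠ 2 := by
    rintro rfl
    rw [ht, pow_succ, Nat.odd_mul, Nat.odd_mul] at hodd
    exact absurd hodd.1.2 (by decide)
  have ht0 : t ≠ 0 := NeZero.ne t
  have hp4 : Nat.Coprime p 4 := by
    have : Nat.Coprime p (2 ^ 2) := Nat.Coprime.pow_right 2
      ((Nat.coprime_primes hp Nat.prime_two).2 hp2)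
    simpa using this
  have hm4 : ¬ p ∣ 4 * m := by
    rw [hp.dvd_mul]
    rintro (h | h)
    · have h1 : p ∣ Nat.gcd p 4 := Nat.dvd_gcd dvd_rfl h
      rw [Nat.Coprime.gcd_eq_one hp4] at h1
      exact hp.one_lt.ne' (Nat.dvd_one.1 h1)
    · exact hm h
  have hcard : Fintype.card (ZMod 2 × ZMod 2 × ZMod t) = p ^ (r + 1) * (4 * m) := by
    rw [Fintype.card_prod, Fintype.card_prod, ZMod.card, ZMod.card, ht]; ring
  set f : ZMod t →+ ZMod 2 × ZMod 2 × ZMod t :=
    (AddMonoidHom.inr (ZMod 2) (ZMod 2 × ZMod t)).comp (AddMonoidHom.inr (ZMod 2) (ZMod t)) with hf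
  have hfinj : Function.Injective f := by
    intro a b hab
    have := congrArg (fun x : ZMod 2 × ZMod 2 × ZMod t => x.2.2) hab
    simpa [hf] using this
  have hg₀ : addOrderOf (f ((m : ℕ) : ZMod t)) = p ^ (r + 1) := by
    rw [addOrderOf_injective f hfinj, ZMod.addOrderOf_coe m ht0]
    have h1 : t.gcd m = m := by
      rw [ht]; exact Nat.gcd_mul_left_left _ _
    rw [h1, ht]
    apply Nat.mul_div_cancel
    rcases Nat.eq_zero_or_pos m with h | h
    · rw [h, mul_zero] at ht; exact absurd ht ht0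
    · exact h
  obtain ⟨k1, k2, k3⟩ := main_int p r (4 * m) hp2 _ hg₀ hcard hm4 ψ hψ h0 hcon hc _ hM
  rcases hcond with h | h | ⟨k, hk⟩
  · omega
  · omega
  · apply k3 k
    intro g hg
    have h1 : addOrderOf g ∣ p ^ (r + 1) * (2 * m) := by
      have h2 : p ^ (r + 1) * (2 * m) = 2 * t := by rw [ht]; ring
      rw [h2]
      apply addOrderOf_dvd_of_nsmul_eq_zero
      have e2 : ((2 * t : ℕ) : ZMod 2) = 0 := by
        rw [Nat.cast_mul, ZMod.natCast_self, zero_mul]
      have et : ((2 * t : ℕ) : ZMod t) = 0 := by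
        rw [Nat.cast_mul, ZMod.natCast_self, mul_zero]
      have h3 : (2 * t) • g.1 = 0 := by rw [nsmul_eq_mul, e2, zero_mul]
      have h4 : (2 * t) • g.2.1 = 0 := by rw [nsmul_eq_mul, e2, zero_mul]
      have h5 : (2 * t) • g.2.2 = 0 := by rw [nsmul_eq_mul, et, zero_mul]
      exact Prod.ext h3 (Prod.ext h4 h5)
    have h2 : addOrderOf g ∣ 2 * m := by
      apply Nat.Coprime.dvd_of_dvd_mul_left _ h1
      exact Nat.Coprime.pow_right _ ((Nat.Prime.coprime_iff_not_dvd hp).2 hg).symm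
    calc 2 * addOrderOf g ∣ 2 * (2 * m) := Nat.mul_dvd_mul_left 2 h2
      _ = 4 * m := by ring
      _ ∣ p ^ k + 1 := hk

end Pool.Agent.HE996
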