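import Pool.Agent.HE996.Split

set_option autoImplicit false

/-!
# The extension group of a symmetric cocycle, and the splitting off of a cyclic Sylow subgroup
-/

namespace Pool.Agent.HE996

section Decomp

variable {E : Type*} [CommGroup E] [Fintype E]

theorem decomp (p r m : ℕ) [hp : Fact p.Prime] (x₀ : E) (hx : orderOf x₀ = p ^ (r + 1))
    (hcard : Fintype.card E = p ^ (r + 1) * m) (hm : ¬ p ∣ m) :
    ∃ (K : Subgroup E) (Φ : (K × Subgroup.zpowers x₀) ≃* E), (∀ x : E, x ∈ K ↔ x ^ m = 1) ∧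
      (∀ x, Φ x = (x.1 : E) * (x.2 : E)) ∧ Nat.card K = m := by
  classical
  have hcop : Nat.Coprime m (p ^ (r + 1)) :=
    Nat.Coprime.pow_right _ ((Nat.Prime.coprime_iff_not_dvd hp.out).2 hm).symm
  have hE : ∀ x : E, x ^ (p ^ (r + 1) * m) = 1 := by
    intro x; rw [← hcard]; exact pow_card_eq_one
  -- the Sylow subgroup
  set P₀ : Subgroup E := (powMonoidHom (p ^ (r + 1)) : E →* E).ker with hP₀
  have hmem : ∀ x : E, x ∈ P₀ ↔ x ^ (p ^ (r + 1)) = 1 := by
    intro x; rw [hP₀, MonoidHom.mem_ker, powMonoidHom_apply]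
  have hP₀grp : IsPGroup p P₀ := by
    intro x
    exact ⟨r + 1, Subtype.ext (by simpa using (hmem x).1 x.2)⟩
  obtain ⟨k, hk⟩ := (IsPGroup.iff_card).1 hP₀grp
  have hkle : k ≤ r + 1 := by
    have h1 : p ^ k ∣ p ^ (r + 1) * m := by
      rw [← hk, ← hcard, ← Nat.card_eq_fintype_card]
      exact Subgroup.card_subgroup_dvd_card _
    have h2 : p ^ k ∣ p ^ (r + 1) :=
      Nat.Coprime.dvd_of_dvd_mul_right
        (Nat.Coprime.pow_left _ ((Nat.Prime.coprime_iff_not_dvd hp.out).2 hm)) h1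
    exact (Nat.pow_dvd_pow_iff_le_right hp.out.one_lt).1 h2
  have hle : Subgroup.zpowers x₀ ≤ P₀ := by
    rw [Subgroup.zpowers_le, hmem, ← hx]
    exact pow_orderOf_eq_one _
  have heq : Subgroup.zpowers x₀ = P₀ := by
    apply Subgroup.eq_of_le_of_card_ge hle
    rw [hk, Nat.card_zpowers, hx]
    exact Nat.pow_le_pow_right hp.out.pos hkle
  set K : Subgroup E := (powMonoidHom m : E →* E).ker with hK
  have hmemK : ∀ x : E, x ∈ K ↔ x ^ m = 1 := by
    intro x; rw [hK, MonoidHom.mem_ker, powMonoidHom_apply]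
  set Φ₀ : K × Subgroup.zpowers x₀ →* E :=
    (K.subtype).coprod (Subgroup.zpowers x₀).subtype with hΦ₀
  have hΦval : ∀ x, Φ₀ x = (x.1 : E) * (x.2 : E) := by
    intro x; rfl
  have hinj : Function.Injective Φ₀ := by
    rw [injective_iff_map_eq_one]
    rintro ⟨⟨a, ha⟩, ⟨b, hb⟩⟩ hab
    rw [hΦval] at hab
    simp only at hab
    rw [hmemK] at ha
    rw [heq, hmem] at hb
    have h1 : b ^ m = 1 := by
      have h2 : (a * b) ^ m = 1 := by rw [hab, one_pow]
      rwa [mul_pow, ha, one_mul] at h2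
    have h2 : b = 1 := by
      have h3 : orderOf b ∣ Nat.gcd m (p ^ (r + 1)) :=
        Nat.dvd_gcd (orderOf_dvd_of_pow_eq_one h1) (orderOf_dvd_of_pow_eq_one hb)
      rw [Nat.Coprime.gcd_eq_one hcop] at h3
      exact orderOf_eq_one_iff.1 (Nat.dvd_one.1 h3)
    subst h2
    rw [mul_one] at hab
    subst hab
    rfl
  have hsurj : Function.Surjective Φ₀ := by
    intro x
    have hb : IsCoprime (m : ℤ) ((p ^ (r + 1) : ℕ) : ℤ) := Nat.isCoprime_iff_coprime.2 hcop
    obtain ⟨a, b, hab⟩ := hb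
    refine ⟨⟨⟨x ^ (b * ((p ^ (r + 1) : ℕ) : ℤ)), ?_⟩, ⟨x ^ (a * (m : ℤ)), ?_⟩⟩, ?_⟩
    · rw [hmemK, ← zpow_natCast, ← zpow_mul, mul_assoc, mul_comm b, zpow_mul]
      have : x ^ (((p ^ (r + 1) : ℕ) : ℤ) * (m : ℤ)) = 1 := by
        have := hE x
        rw [← zpow_natCast] at this
        push_cast at this ⊢
        exact this
      rw [this, one_zpow]
    · rw [heq, hmem, ← zpow_natCast, ← zpow_mul, mul_assoc, mul_comm a, zpow_mul]
      have : x ^ ((m : ℤ) * ((p ^ (r + 1) : ℕ) : ℤ)) = 1 := by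
        have := hE x
        rw [← zpow_natCast] at this
        push_cast at this ⊢
        rw [mul_comm]
        exact this
      rw [this, one_zpow]
    · rw [hΦval]
      simp only
      rw [← zpow_add, add_comm, hab, zpow_one]
  refine ⟨K, MulEquiv.ofBijective Φ₀ ⟨hinj, hsurj⟩, hmemK, fun x => rfl, ?_⟩
  have h1 := Nat.card_congr (Equiv.ofBijective Φ₀ ⟨hinj, hsurj⟩)
  rw [Nat.card_prod, Nat.card_zpowers, hx, Nat.card_eq_fintype_card (α := E), hcard,
    mul_comm (p ^ (r + 1)) m] at h1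
  exact Nat.eq_of_mul_eq_mul_right (pow_pos hp.out.pos _) h1

end Decomp

section Main

/-- A sign function on an abelian group whose autocorrelation vanishes except at `1` and `n`. -/
theorem main_E {E : Type*} [CommGroup E] [Fintype E] (p r m : ℕ) [hp : Fact p.Prime]
    (hp2 : p ≠ 2) (x₀ : E) (hx : orderOf x₀ = p ^ (r + 1))
    (hcard : Fintype.card E = p ^ (r + 1) * m) (hm : ¬ p ∣ m) (n : E) (hn : n ≠ 1)
    (hn2 : n * n = 1) (φ : E → ℤ) (hφ : ∀ x, φ x = 1 ∨ φ x = -1) (hanti : ∀ x, φ (n * x) = - φ x)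
    (hcorr : ∀ y : E, y ≠ 1 → y ≠ n → ∑ x : E, φ x * φ (x * y) = 0) :
    1 ≤ r ∧ 2 * p < m ∧ ∀ k, ¬ ∀ h : E, h ^ m = 1 → h ^ (p ^ k) = h⁻¹ := by
  classical
  obtain ⟨K, Φ, hmemK, hΦ, hcardK⟩ := decomp p r m x₀ hx hcard hm
  have hcardE : Even (p ^ (r + 1) * m) := by
    rw [← hcard, ← Nat.card_eq_fintype_card, even_iff_two_dvd]
    have h1 : orderOf n = 2 := by
      apply orderOf_eq_prime
      · rw [sq, hn2]
      · exact hn
    rw [← h1]
    exact orderOf_dvd_natCard n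
  have hmeven : Even m := by
    rw [Nat.even_mul] at hcardE
    rcases hcardE with h | h
    · exfalso
      have := (hp.out.odd_of_ne_two hp2).pow (n := r + 1)
      exact (Nat.not_even_iff_odd.2 this) h
    · exact h
  have hnK : n ∈ K := by
    rw [hmemK]
    obtain ⟨k, hk⟩ := hmeven
    rw [hk, ← two_mul, pow_mul, sq, hn2, one_pow]
  have hKn : ¬ p ∣ Nat.card K := by rw [hcardK]; exact hm
  set c : Subgroup.zpowers x₀ := ⟨x₀, Subgroup.mem_zpowers x₀⟩ with hc
  have hoc : orderOf c = p ^ (r + 1) := by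
    rw [← hx, hc, Subgroup.orderOf_mk]
  have hgen : ∀ g : Subgroup.zpowers x₀, ∃ k : ℕ, c ^ k = g := by
    rintro ⟨g, hg⟩
    rw [← mem_powers_iff_mem_zpowers] at hg
    obtain ⟨k, hk⟩ := hg
    exact ⟨k, Subtype.ext (by simpa using hk)⟩
  have hcC : Fintype.card (Subgroup.zpowers x₀) = p ^ (r + 1) := by
    rw [← Nat.card_eq_fintype_card, Nat.card_zpowers, hx]
  have hΦn : Φ (⟨n, hnK⟩, 1) = n := by rw [hΦ]; simp
  have key := main_split (H := K) (C := Subgroup.zpowers x₀) p r hp2 c hoc hgen hcC hKn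
    ⟨n, hnK⟩ (by intro h; exact hn (congrArg Subtype.val h)) (Subtype.ext hn2)
    (fun x => φ (Φ x)) (fun x => hφ _) (by
      intro x
      rw [map_mul, hΦn, hanti]) (by
      intro y hy1 hy2
      have h1 : ∑ x : K × Subgroup.zpowers x₀, φ (Φ x) * φ (Φ (x * y⁻¹)) =
          ∑ x : E, φ x * φ (x * (Φ y)⁻¹) := by
        rw [← Equiv.sum_comp Φ.toEquiv]
        apply Finset.sum_congr rfl
        intro x _
        simp
      rw [h1]
      apply hcorr
      · intro h2
        apply hy1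
        have h3 : Φ y = 1 := inv_eq_one.1 h2
        exact (MulEquiv.map_eq_one_iff Φ).1 h3
      · intro h2
        apply hy2
        apply Φ.injective
        rw [hΦn]
        have h3 : Φ y = n⁻¹ := by rw [← h2, inv_inv]
        rw [h3]
        exact inv_eq_of_mul_eq_one_left hn2)
  obtain ⟨k1, k2, k3⟩ := key
  refine ⟨k1, ?_, ?_⟩
  · rw [← Nat.card_eq_fintype_card, hcardK] at k2
    exact k2
  · intro k hk
    apply k3 k
    rintro ⟨h, hh⟩
    exact Subtype.ext (by simpa using hk h ((hmemK h).1 hh))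

end Main

end Pool.Agent.HE996
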