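import Pool.Agent.HE996.Core

set_option autoImplicit false

/-!
# Orders of vanishing: the two key lemmas
-/

namespace Pool.Agent.HE996

section Setup

variable {S G : Type*} [CommRing S] [CommGroup G] [Finite G]

/-- a group ring element all of whose coefficients are divisible by `n` is divisible by `n` -/
theorem dvd_of_coeff (n : ℕ) (y : MonoidAlgebra S G) (h : ∀ j, (n : S) ∣ y.coeff j) :
    ∃ R : MonoidAlgebra S G, y = (n : MonoidAlgebra S G) * R := by
  choose R hR using h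
  refine ⟨MonoidAlgebra.ofCoeff (Finsupp.equivFunOnFinite.symm R), ?_⟩
  ext j
  rw [MonoidAlgebra.natCast_def, MonoidAlgebra.coeff_single_one_mul]
  simpa using hR j

theorem coeff_natCast_mul (n : ℕ) (y : MonoidAlgebra S G) (j : G) :
    ((n : MonoidAlgebra S G) * y).coeff j = (n : S) * y.coeff j := by
  rw [MonoidAlgebra.natCast_def, MonoidAlgebra.coeff_single_one_mul]

theorem cancel_p (p : ℕ) (hpS : ∀ a : S, (p : S) * a = 0 → a = 0) (y : MonoidAlgebra S G)
    (h : (p : MonoidAlgebra S G) * y = 0) : y = 0 := by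
  ext j
  have h2 := congrArg (fun z : MonoidAlgebra S G => z.coeff j) h
  simp only [coeff_natCast_mul, MonoidAlgebra.coeff_zero, Finsupp.coe_zero, Pi.zero_apply] at h2
  simpa using hpS _ h2

theorem exists_e (p Q : ℕ) (hQ : 2 ≤ Q) (hQS : ∀ a : S, (p : S) ∣ a ^ Q - a) (M : Ideal S)
    [hM : M.IsPrime] (y : MonoidAlgebra S G) (hy : ∀ j, y.coeff j ∈ M) :
    ∃ e : S, e ∉ M ∧ ∃ R : MonoidAlgebra S G,
      MonoidAlgebra.single 1 e * y = (p : MonoidAlgebra S G) * R := by
  classical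
  have := Fintype.ofFinite G
  refine ⟨∏ j : G, (1 - (y.coeff j) ^ (Q - 1)), ?_, ?_⟩
  · rw [hM.prod_mem_iff]
    rintro ⟨j, -, hj⟩
    have h1 : (y.coeff j) ^ (Q - 1) ∈ M := Ideal.pow_mem_of_mem _ (hy j) _ (by omega)
    have h2 : (1 : S) ∈ M := by
      have := M.add_mem hj h1
      simpa using this
    exact hM.ne_top ((Ideal.eq_top_iff_one _).2 h2)
  · apply dvd_of_coeff
    intro j
    rw [MonoidAlgebra.coeff_single_one_mul]
    rw [← Finset.mul_prod_erase Finset.univ _ (Finset.mem_univ j)]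
    have h3 : (1 - y.coeff j ^ (Q - 1)) * y.coeff j = -((y.coeff j) ^ Q - y.coeff j) := by
      obtain ⟨k, rfl⟩ : ∃ k, Q = k + 1 := ⟨Q - 1, by omega⟩
      rw [Nat.add_sub_cancel, pow_succ]; ring
    have h4 : (p : S) ∣ (1 - y.coeff j ^ (Q - 1)) * y.coeff j := by
      rw [h3]; exact (hQS _).neg_right
    calc (p : S) ∣ ((1 - y.coeff j ^ (Q - 1)) * y.coeff j) *
        (∏ x ∈ Finset.univ.erase j, (1 - (y.coeff x) ^ (Q - 1))) := Dvd.dvd.mul_right h4 _
      _ = _ := by ring

/-- reduction of the coefficients -/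
noncomputable abbrev red (M : Ideal S) : MonoidAlgebra S G →+* MonoidAlgebra (S ⧸ M) G :=
  MonoidAlgebra.mapRingHom G (Ideal.Quotient.mk M)

theorem red_surj (M : Ideal S) : Function.Surjective (red (G := G) M) :=
  MonoidAlgebra.map_surjective _ Ideal.Quotient.mk_surjective

theorem red_el (M : Ideal S) (g : G) : red M (el S g) = el (S ⧸ M) g := by
  unfold el; simp

theorem coeff_red (M : Ideal S) (w : MonoidAlgebra S G) (j : G) :
    (red M w).coeff j = Ideal.Quotient.mk M (w.coeff j) :=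
  MonoidAlgebra.coeff_mapRingHom _ _ _

theorem red_eq_zero (M : Ideal S) (w : MonoidAlgebra S G) :
    red M w = 0 ↔ ∀ j, w.coeff j ∈ M := by
  constructor
  · intro h j
    rw [← Ideal.Quotient.eq_zero_iff_mem, ← coeff_red, h]; simp
  · intro h
    ext j
    rw [coeff_red, Ideal.Quotient.eq_zero_iff_mem.2 (h j)]; simp

theorem aug_red (M : Ideal S) (w : MonoidAlgebra S G) :
    aug (S ⧸ M) G (red M w) = Ideal.Quotient.mk M (aug S G w) := by
  have : (aug (S ⧸ M) G).comp (red M) = (Ideal.Quotient.mk M).comp (aug S G) := by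
    apply MonoidAlgebra.ringHom_ext
    · intro r; simp
    · intro m; simp
  exact congrArg (fun f : MonoidAlgebra S G →+* S ⧸ M => f w) this

theorem charP_quot (p : ℕ) [hp : Fact p.Prime] (M : Ideal S) [hM : M.IsPrime]
    (hpM : (p : S) ∈ M) : CharP (S ⧸ M) p := by
  have h0 : ((p : ℕ) : S ⧸ M) = 0 := by
    have := Ideal.Quotient.eq_zero_iff_mem.2 hpM
    simpa using this
  obtain ⟨n, hn⟩ := CharP.exists (S ⧸ M)
  have h1 : n ∣ p := (CharP.cast_eq_zero_iff (S ⧸ M) n p).1 h0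
  rcases (Nat.dvd_prime hp.out).1 h1 with h2 | h2
  · subst h2
    exfalso
    have h3 : ((1 : ℕ) : S ⧸ M) = 0 := (CharP.cast_eq_zero_iff (S ⧸ M) 1 1).2 dvd_rfl
    rw [Nat.cast_one] at h3
    exact one_ne_zero h3
  · subst h2; exact hn

end Setup

section Key

variable {S G : Type*} [CommRing S] [CommGroup G] [Finite G] (p r : ℕ) [hp : Fact p.Prime]
  (c : G) (hc : c ^ (p ^ (r + 1)) = 1) (hc' : c ^ (p ^ r) ≠ 1)
  (hgen : ∀ g : G, ∃ k : ℕ, c ^ k = g)
  (hpS : ∀ a : S, (p : S) * a = 0 → a = 0)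
  (Q : ℕ) (hQ : 2 ≤ Q) (hQS : ∀ a : S, (p : S) ∣ a ^ Q - a)
  (M : Ideal S) [hM : M.IsPrime] (hpM : (p : S) ∈ M)

/-- the sum over the subgroup of order `p` -/
noncomputable def sig (S : Type*) {G : Type*} [CommRing S] [CommGroup G] (p r : ℕ) (c : G) :
    MonoidAlgebra S G := ∑ i ∈ Finset.range p, (el S c ^ (p ^ r)) ^ i

include hc in
omit [Finite G] hp in
theorem sub_one_mul_sig : (el S (c ^ (p ^ r)) - 1) * sig S p r c = 0 := by
  unfold sig
  rw [el_pow, mul_comm, geom_sum_mul, ← pow_mul, ← pow_succ, ← el_pow, hc, el_one, sub_self]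

/-- the identity `(c - 1) ^ φ = sig + p κ` -/
theorem pow_phi : ∃ κ : MonoidAlgebra S G,
    (el S c - 1) ^ (p ^ r * (p - 1)) = sig S p r c + (p : MonoidAlgebra S G) * κ ∧
      aug S G κ = -1 := by
  obtain ⟨K, hK, hK1⟩ := polyK p r
  refine ⟨Polynomial.aeval (el S c) K, ?_, ?_⟩
  · have := congrArg (Polynomial.aeval (el S c)) hK
    simpa [sig] using this
  · have h1 : aug S G (Polynomial.aeval (el S c) K) = Polynomial.aeval (1 : S) K := by
      have := (Polynomial.hom_eval₂ K (algebraMap ℤ (MonoidAlgebra S G)) (aug S G) (el S c))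
      rw [Polynomial.aeval_def, this, aug_el, Polynomial.aeval_def]
      congr 1
      exact Subsingleton.elim _ _
    rw [h1]
    have h2 : Polynomial.aeval (1 : S) K = ((K.eval 1 : ℤ) : S) := by
      have := Polynomial.eval₂_at_apply (p := K) (algebraMap ℤ S) (1 : ℤ)
      rw [Polynomial.aeval_def]
      simpa using this
    rw [h2, hK1]; simp

include hc hgen hpM hQ hQS in
theorem step (f : MonoidAlgebra S G)
    (hf : red M ((el S (c ^ (p ^ r)) - 1) * f) ≠ 0) :
    ∃ (n : ℕ) (e : S) (W : MonoidAlgebra S G), 0 < n ∧ e ∉ M ∧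
      (el S (c ^ (p ^ r)) - 1) * ((el S c - 1) ^ n * (MonoidAlgebra.single 1 e * f)) =
        (p : MonoidAlgebra S G) * ((el S (c ^ (p ^ r)) - 1) * W) ∧ aug S G W ∉ M := by
  have hF := charP_quot p M hpM
  have hA := charP_alg (F := S ⧸ M) (G := G) p
  have hf0 : red M f ≠ 0 := by
    intro h; apply hf; rw [map_mul, h, mul_zero]
  obtain ⟨a, U, ha, hU, hU1⟩ := factor (F := S ⧸ M) p (p ^ (r + 1)) (r + 1) rfl c hc hgen _ hf0
  have hz : red M (el S (c ^ (p ^ r)) - 1) = (el (S ⧸ M) c - 1) ^ (p ^ r) := by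
    rw [map_sub, map_one, red_el, sub_pow_char_pow, one_pow, el_pow]
  have hnil : (el (S ⧸ M) c - 1) ^ (p ^ (r + 1)) = 0 := by
    rw [sub_pow_char_pow, one_pow, ← el_pow, hc, el_one, sub_self]
  have hq : p ^ (r + 1) = p ^ r * (p - 1) + p ^ r := by
    rw [pow_succ]
    have := hp.out.one_lt
    obtain ⟨k, rfl⟩ : ∃ k, p = k + 1 := ⟨p - 1, by omega⟩
    rw [Nat.add_sub_cancel]; ring
  have ha' : a < p ^ r * (p - 1) := by
    by_contra hcon
    apply hf
    rw [map_mul, hz, hU, ← mul_assoc, ← pow_add]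
    have h5 : p ^ r + a = p ^ (r + 1) + (p ^ r + a - p ^ (r + 1)) := by omega
    rw [h5, pow_add, hnil, zero_mul, zero_mul]
  obtain ⟨U', hU'⟩ := red_surj (G := G) M U
  have hker : ∀ j, (f - (el S c - 1) ^ a * U').coeff j ∈ M := by
    rw [← red_eq_zero, map_sub, map_mul, map_pow, map_sub, map_one, red_el, hU', ← hU, sub_self]
  obtain ⟨e, he, R, hR⟩ := exists_e p Q hQ hQS M _ hker
  obtain ⟨κ, hκ, hκ1⟩ := pow_phi (S := S) (G := G) p r c
  refine ⟨p ^ r * (p - 1) - a, e,
    κ * MonoidAlgebra.single 1 e * U' + (el S c - 1) ^ (p ^ r * (p - 1) - a) * R,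
    by omega, he, ?_, ?_⟩
  · have h1 : MonoidAlgebra.single 1 e * f =
        MonoidAlgebra.single 1 e * ((el S c - 1) ^ a * U') + (p : MonoidAlgebra S G) * R := by
      rw [← hR]; ring
    have h2 : (el S c - 1) ^ (p ^ r * (p - 1) - a) * (el S c - 1) ^ a =
        sig S p r c + (p : MonoidAlgebra S G) * κ := by
      rw [← pow_add, ← hκ]; congr 1; omega
    have h3 := sub_one_mul_sig (S := S) p r c hc
    rw [h1]
    linear_combination (MonoidAlgebra.single 1 e * U' * (el S (c ^ (p ^ r)) - 1)) * h2 +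
      (MonoidAlgebra.single 1 e * U') * h3
  · have h4 : aug S G U' ∉ M := by
      intro h
      apply hU1
      rw [← hU', aug_red, Ideal.Quotient.eq_zero_iff_mem.2 h]
    rw [map_add, map_mul, map_mul, hκ1, aug_single, map_mul, map_pow, map_sub, aug_el, map_one,
      sub_self, zero_pow (by omega), zero_mul, add_zero]
    intro h
    have h5 : e * aug S G U' ∈ M := by
      have : e * aug S G U' = -(-1 * e * aug S G U') := by ring
      rw [this]; exact M.neg_mem h
    rcases hM.mem_or_mem h5 with h6 | h6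
    · exact he h6
    · exact h4 h6

include hc hc' hgen hpM hQ hQS hpS in
/-- **Lemma B**. -/
theorem lemmaB (f g y : MonoidAlgebra S G)
    (h : (el S (c ^ (p ^ r)) - 1) * (f * g) =
      (el S (c ^ (p ^ r)) - 1) * ((p : MonoidAlgebra S G) ^ 2 * y)) :
    (∀ j, ((el S (c ^ (p ^ r)) - 1) * f).coeff j ∈ M) ∨
    (∀ j, ((el S (c ^ (p ^ r)) - 1) * g).coeff j ∈ M) := by
  by_contra hcon
  rw [not_or, ← red_eq_zero, ← red_eq_zero] at hcon
  obtain ⟨hf, hg⟩ := hcon
  obtain ⟨n1, e1, W1, hn1, he1, h1, hW1⟩ := step p r c hc hgen Q hQ hQS M hpM f hf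
  obtain ⟨n2, e2, W2, hn2, he2, h2, hW2⟩ := step p r c hc hgen Q hQ hQS M hpM g hg
  have hF := charP_quot p M hpM
  set Z := el S (c ^ (p ^ r)) - 1 with hZ
  have h3 : (p : MonoidAlgebra S G) * ((p : MonoidAlgebra S G) *
      (Z * ((el S c - 1) ^ (n1 + n2) * (MonoidAlgebra.single 1 e1 * MonoidAlgebra.single 1 e2) * y
        - W1 * W2))) = 0 := by
    linear_combination ((el S c - 1) ^ n2 * (MonoidAlgebra.single 1 e2 * g)) * h1 +
      ((p : MonoidAlgebra S G) * W1) * h2 -
      ((el S c - 1) ^ (n1 + n2) * (MonoidAlgebra.single 1 e1 * MonoidAlgebra.single 1 e2)) * h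
  have h4 := cancel_p p hpS _ (cancel_p p hpS _ h3)
  have h5 := congrArg (red M) h4
  rw [map_mul, map_zero, mul_comm] at h5
  have h6 := eq_zero_of_aug (F := S ⧸ M) p (p ^ (r + 1)) (r + 1) rfl
    (by
      intro g
      obtain ⟨k, rfl⟩ := hgen g
      rw [← pow_mul, mul_comm, pow_mul, hc, one_pow]) _ _ (by
      rw [aug_red]
      intro h7
      rw [Ideal.Quotient.eq_zero_iff_mem] at h7
      rw [map_sub, map_mul, map_mul, map_pow, map_sub, aug_el, map_one, sub_self,
        zero_pow (by omega), zero_mul, zero_mul, zero_sub, map_mul] at h7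
      have h8 : aug S G W1 * aug S G W2 ∈ M := by
        rw [← neg_neg (aug S G W1 * aug S G W2)]; exact M.neg_mem h7
      rcases hM.mem_or_mem h8 with h9 | h9
      · exact hW1 h9
      · exact hW2 h9) h5
  rw [hZ, map_sub, map_one, red_el, sub_eq_zero] at h6
  apply hc'
  have h10 : (MonoidAlgebra.single (c ^ (p ^ r)) (1 : S ⧸ M) : MonoidAlgebra (S ⧸ M) G) =
      MonoidAlgebra.single 1 1 := h6
  exact (MonoidAlgebra.single_left_inj one_ne_zero).1 h10

include hc hc' hgen hpM hQ hQS hpS in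
omit hc' in
/-- **Lemma A**: the case of a group of order `p`. -/
theorem lemmaA (hr : r = 0) (hc1 : ∀ i, 0 < i → i < p → c ^ i ≠ 1) (u : S) (hu : u ∉ M)
    (f g : MonoidAlgebra S G)
    (h : f * g = (p : MonoidAlgebra S G) * MonoidAlgebra.single 1 u) :
    (∀ j, f.coeff j ∈ M) ∨ (∀ j, g.coeff j ∈ M) := by
  subst hr
  by_contra hcon
  rw [not_or, ← red_eq_zero, ← red_eq_zero] at hcon
  obtain ⟨hf, hg⟩ := hcon
  have hF := charP_quot p M hpM
  have hA := charP_alg (F := S ⧸ M) (G := G) p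
  have hp1 := hp.out.one_lt
  have hcp : c ^ p = 1 := by simpa using hc
  have hGp : ∀ g : G, g ^ p = 1 := by
    intro g
    obtain ⟨k, rfl⟩ := hgen g
    rw [← pow_mul, mul_comm, pow_mul, hcp, one_pow]
  have hp' : p = p ^ 1 := (pow_one p).symm
  have hpA : ((p : ℕ) : MonoidAlgebra (S ⧸ M) G) = 0 := CharP.cast_eq_zero _ p
  obtain ⟨a, U, ha, hU, hU1⟩ := factor (F := S ⧸ M) p p 1 hp' c hcp hgen _ hf
  obtain ⟨b, V, hb, hV, hV1⟩ := factor (F := S ⧸ M) p p 1 hp' c hcp hgen _ hg
  -- the norm element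
  have hsigc : ∀ (T : Type _) [CommRing T], (sig T p 0 c).coeff 1 = 1 := by
    intro T _
    unfold sig el
    simp only [pow_zero, pow_one, MonoidAlgebra.single_pow, one_pow, MonoidAlgebra.coeff_sum,
      MonoidAlgebra.coeff_single, Finsupp.coe_finsetSum, Finset.sum_apply]
    rw [Finset.sum_eq_single 0]
    · simp
    · intro i hi hi0
      rw [Finsupp.single_eq_of_ne]
      intro hh
      exact hc1 i (Nat.pos_of_ne_zero hi0) (Finset.mem_range.1 hi) hh.symm
    · intro h0; exact absurd (Finset.mem_range.2 (by omega)) h0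
  have hxs : ∀ (T : Type _) [CommRing T] (w : MonoidAlgebra T G),
      w * sig T p 0 c = MonoidAlgebra.single 1 (aug T G w) * sig T p 0 c := by
    intro T _ w
    obtain ⟨v, hv⟩ := aug_dvd c hgen w
    have h1 := sub_one_mul_sig (S := T) p 0 c hc
    rw [pow_zero, pow_one] at h1
    linear_combination (sig T p 0 c) * hv + v * h1
  obtain ⟨κ, hκ, hκ1⟩ := pow_phi (S := S) (G := G) p 0 c
  rw [pow_zero, one_mul] at hκ
  have hredsig : (el (S ⧸ M) c - 1) ^ (p - 1) = sig (S ⧸ M) p 0 c := by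
    obtain ⟨κ', hκ', -⟩ := pow_phi (S := S ⧸ M) (G := G) p 0 c
    rw [pow_zero, one_mul, hpA, zero_mul, add_zero] at hκ'
    exact hκ'
  have hne : (el (S ⧸ M) c - 1) ^ (p - 1) ≠ 0 := by
    intro h0
    have h1 := hsigc (S ⧸ M)
    rw [← hredsig, h0] at h1
    simp at h1
  -- `a + b ≥ p`
  have hab : p ≤ a + b := by
    by_contra hlt
    have h1 : red M f * red M g = 0 := by
      rw [← map_mul, h, map_mul, map_natCast, hpA, zero_mul]
    rw [hU, hV] at h1
    have h2 : (U * V) * (el (S ⧸ M) c - 1) ^ (a + b) = 0 := by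
      rw [pow_add]; linear_combination h1
    have h3 := eq_zero_of_aug (F := S ⧸ M) p p 1 hp' hGp _ _ (by
      rw [map_mul]; exact mul_ne_zero hU1 hV1) h2
    apply hne
    have h4 : p - 1 = (a + b) + (p - 1 - (a + b)) := by omega
    rw [h4, pow_add, h3, zero_mul]
  -- lift
  obtain ⟨U', hU'⟩ := red_surj (G := G) M U
  have hker : ∀ j, (f - (el S c - 1) ^ a * U').coeff j ∈ M := by
    rw [← red_eq_zero, map_sub, map_mul, map_pow, map_sub, map_one, red_el, hU', ← hU, sub_self]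
  obtain ⟨e, he, R, hR⟩ := exists_e p Q hQ hQS M _ hker
  set k0 := p - 1 - a with hk0
  set R' : MonoidAlgebra S G := κ * MonoidAlgebra.single 1 e * U' + (el S c - 1) ^ k0 * R with hR'
  have h1 : (el S c - 1) ^ k0 * (MonoidAlgebra.single 1 e * f) =
      sig S p 0 c * (MonoidAlgebra.single 1 e * U') + (p : MonoidAlgebra S G) * R' := by
    have h2 : (el S c - 1) ^ k0 * (el S c - 1) ^ a =
        sig S p 0 c + (p : MonoidAlgebra S G) * κ := by
      rw [← pow_add, ← hκ]; congr 1; omega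
    rw [hR']
    linear_combination (MonoidAlgebra.single 1 e * U') * h2 + ((el S c - 1) ^ k0) * hR
  -- multiply by `g`
  set t0 : S := aug S G (MonoidAlgebra.single 1 e * U' * g) with ht0
  have h3 : MonoidAlgebra.single 1 t0 * sig S p 0 c =
      (p : MonoidAlgebra S G) * ((el S c - 1) ^ k0 * MonoidAlgebra.single 1 e *
        MonoidAlgebra.single 1 u - R' * g) := by
    have h4 := hxs S (MonoidAlgebra.single 1 e * U' * g)
    rw [← ht0] at h4
    rw [← h4]
    linear_combination ((el S c - 1) ^ k0 * MonoidAlgebra.single 1 e) * h - g * h1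
  obtain ⟨t, ht⟩ : ∃ t : S, t0 = (p : S) * t := by
    have h4 := congrArg (fun z : MonoidAlgebra S G => z.coeff 1) h3
    simp only [MonoidAlgebra.coeff_single_one_mul, coeff_natCast_mul, hsigc, mul_one] at h4
    exact ⟨_, h4⟩
  have h5 : (el S c - 1) ^ k0 * MonoidAlgebra.single 1 e * MonoidAlgebra.single 1 u - R' * g -
      MonoidAlgebra.single 1 t * sig S p 0 c = 0 := by
    apply cancel_p p hpS
    have h6 : (MonoidAlgebra.single 1 t0 : MonoidAlgebra S G) =
        (p : MonoidAlgebra S G) * MonoidAlgebra.single 1 t := by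
      rw [ht, MonoidAlgebra.natCast_def, MonoidAlgebra.single_mul_single, one_mul]
    rw [mul_sub, ← h3, h6]; ring
  have h6 := congrArg (red M) h5
  rw [map_sub, map_sub, map_mul, map_mul, map_mul, map_mul, map_pow, map_sub, map_one, red_el,
    map_zero, hV] at h6
  have h7 : red M (sig S p 0 c) = sig (S ⧸ M) p 0 c := by
    unfold sig
    rw [map_sum]
    apply Finset.sum_congr rfl
    intro i _
    rw [map_pow, map_pow, red_el]
  rw [h7] at h6
  have h8 := sub_one_mul_sig (S := S ⧸ M) p 0 c hc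
  rw [pow_zero, pow_one] at h8
  have hpow0 : (el (S ⧸ M) c - 1) ^ (a + b) = 0 := by
    have h9 : (el (S ⧸ M) c - 1) ^ p = 0 := by
      rw [sub_pow_char, one_pow, ← el_pow, hcp, el_one, sub_self]
    have h10 : a + b = p + (a + b - p) := by omega
    rw [h10, pow_add, h9, zero_mul]
  have hsiga : (el (S ⧸ M) c - 1) ^ a * sig (S ⧸ M) p 0 c = 0 := by
    obtain ⟨a', rfl⟩ : ∃ a', a = a' + 1 := ⟨a - 1, by omega⟩
    rw [pow_succ, mul_assoc, h8, mul_zero]
  have h11 : (red M (MonoidAlgebra.single 1 e) * red M (MonoidAlgebra.single 1 u)) *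
      (el (S ⧸ M) c - 1) ^ (p - 1) = 0 := by
    have h12 : (el (S ⧸ M) c - 1) ^ (p - 1) = (el (S ⧸ M) c - 1) ^ k0 * (el (S ⧸ M) c - 1) ^ a := by
      rw [← pow_add]; congr 1; omega
    rw [h12]
    rw [pow_add] at hpow0
    linear_combination ((el (S ⧸ M) c - 1) ^ a) * h6 + (red M R' * V) * hpow0 +
      (red M (MonoidAlgebra.single 1 t)) * hsiga
  have h13 := eq_zero_of_aug (F := S ⧸ M) p p 1 hp' hGp _ _ (by
    rw [← map_mul, aug_red, map_mul, aug_single, aug_single]
    intro h14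
    rw [Ideal.Quotient.eq_zero_iff_mem] at h14
    rcases hM.mem_or_mem h14 with h15 | h15
    · exact he h15
    · exact hu h15) h11
  exact hne h13

end Key

end Pool.Agent.HE996
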