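import Pool.Agent.HE996.Local

set_option autoImplicit false

/-!
# Sign functions with two-valued autocorrelation on `H × C`, `C` a cyclic `p`-group
-/

namespace Pool.Agent.HE996

section Frob

variable {H : Type*} [CommGroup H] (p : ℕ) [hp : Fact p.Prime]

/-- Frobenius on the integral group ring modulo `p` -/
theorem frob (j : ℕ) (w : MonoidAlgebra ℤ H) :
    ((p : ℕ) : MonoidAlgebra ℤ H) ∣
      w ^ (p ^ j) - MonoidAlgebra.mapDomainRingHom ℤ (powMonoidHom (p ^ j) : H →* H) w := by
  induction w using MonoidAlgebra.induction_linear with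
  | zero =>
    rw [map_zero, zero_pow (pow_ne_zero _ hp.out.ne_zero), sub_zero]
    exact dvd_zero _
  | add x y hx hy =>
    obtain ⟨s, hs⟩ := exists_add_pow_prime_pow_eq hp.out x y j
    rw [hs, map_add]
    obtain ⟨a, ha⟩ := hx
    obtain ⟨b, hb⟩ := hy
    refine ⟨a + b + x * y * s, ?_⟩
    linear_combination ha + hb
  | single m r =>
    have h1 : (MonoidAlgebra.mapDomainRingHom ℤ (powMonoidHom (p ^ j) : H →* H))
        (MonoidAlgebra.single m r) = MonoidAlgebra.single (m ^ (p ^ j)) r := by
      simp [MonoidAlgebra.mapDomainRingHom]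
    rw [h1, MonoidAlgebra.single_pow]
    have h2 : ((p : ℕ) : ℤ) ∣ r ^ (p ^ j) - r := by
      rw [← ZMod.intCast_zmod_eq_zero_iff_dvd]
      push_cast
      rw [ZMod.pow_card_pow, sub_self]
    obtain ⟨a, ha⟩ := h2
    refine ⟨MonoidAlgebra.single (m ^ (p ^ j)) a, ?_⟩
    rw [MonoidAlgebra.natCast_def, MonoidAlgebra.single_mul_single, one_mul,
      ← MonoidAlgebra.single_sub]
    congr 1

/-- `w ^ Q ≡ w` for some `Q ≥ 2` if `p` does not divide the order of the group -/
theorem exists_Q [Finite H] (hH : ¬ p ∣ Nat.card H) :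
    ∃ Q : ℕ, 2 ≤ Q ∧ ∀ w : MonoidAlgebra ℤ H, ((p : ℕ) : MonoidAlgebra ℤ H) ∣ w ^ Q - w := by
  have hcop : Nat.Coprime p (Nat.card H) := (Nat.Prime.coprime_iff_not_dvd hp.out).2 hH
  have h1 := Nat.ModEq.pow_totient hcop
  have hcard : 0 < Nat.card H := Nat.card_pos
  have hphi : 0 < Nat.totient (Nat.card H) := Nat.totient_pos.2 hcard
  refine ⟨p ^ (Nat.totient (Nat.card H)), ?_, ?_⟩
  · calc 2 ≤ p := hp.out.two_le
      _ = p ^ 1 := (pow_one p).symm
      _ ≤ _ := Nat.pow_le_pow_right hp.out.pos hphi
  · intro w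
    have h2 := frob p (Nat.totient (Nat.card H)) w
    have h3 : (powMonoidHom (p ^ (Nat.totient (Nat.card H))) : H →* H) = MonoidHom.id H := by
      ext h
      simp only [powMonoidHom_apply, MonoidHom.id_apply]
      have h4 : h ^ (p ^ (Nat.totient (Nat.card H))) = h ^ 1 := by
        apply pow_eq_pow_of_modEq h1
        exact pow_card_eq_one'
      rw [h4, pow_one]
    rw [h3, MonoidAlgebra.mapDomainRingHom_id] at h2
    exact h2

/-- the involution of the group ring -/
noncomputable def star' : MonoidAlgebra ℤ H →+* MonoidAlgebra ℤ H :=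
  MonoidAlgebra.mapDomainRingHom ℤ (invMonoidHom : H →* H)

theorem coeff_star' (w : MonoidAlgebra ℤ H) (h : H) :
    (star' w).coeff h = w.coeff h⁻¹ := by
  have h1 : star' w = MonoidAlgebra.ofCoeff (Finsupp.mapDomain (invMonoidHom : H →* H) w.coeff) :=
    rfl
  rw [h1, MonoidAlgebra.coeff_ofCoeff]
  have h2 : h = (invMonoidHom : H →* H) h⁻¹ := by simp
  conv_lhs => rw [h2]
  exact Finsupp.mapDomain_apply inv_injective _ _

theorem frob_star (k : ℕ) (hk : ∀ h : H, h ^ (p ^ k) = h⁻¹) (w : MonoidAlgebra ℤ H) :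
    ((p : ℕ) : MonoidAlgebra ℤ H) ∣ w ^ (p ^ k) - star' w := by
  have h2 := frob p k w
  have h3 : (powMonoidHom (p ^ k) : H →* H) = invMonoidHom := by
    ext h
    simp [hk]
  rw [h3] at h2
  exact h2

theorem pow_Q_iter (Q : ℕ)
    (hQS : ∀ w : MonoidAlgebra ℤ H, ((p : ℕ) : MonoidAlgebra ℤ H) ∣ w ^ Q - w) (m : ℕ)
    (w : MonoidAlgebra ℤ H) : ((p : ℕ) : MonoidAlgebra ℤ H) ∣ w ^ (Q ^ m) - w := by
  induction m with
  | zero => simp
  | succ m ih =>
    have h1 : w ^ (Q ^ (m + 1)) - w = ((w ^ (Q ^ m)) ^ Q - w ^ (Q ^ m)) + (w ^ (Q ^ m) - w) := by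
      rw [pow_succ, pow_mul]; ring
    rw [h1]
    exact dvd_add (hQS _) ih

/-- an element which lies in all the prime ideals containing `p` is divisible by `p` -/
theorem dvd_of_forall_prime (Q : ℕ) (hQ : 2 ≤ Q)
    (hQS : ∀ w : MonoidAlgebra ℤ H, ((p : ℕ) : MonoidAlgebra ℤ H) ∣ w ^ Q - w)
    (w : MonoidAlgebra ℤ H)
    (hw : ∀ M : Ideal (MonoidAlgebra ℤ H), M.IsPrime → ((p : ℕ) : MonoidAlgebra ℤ H) ∈ M → w ∈ M) :
    ((p : ℕ) : MonoidAlgebra ℤ H) ∣ w := by
  have h1 : w ∈ (Ideal.span {((p : ℕ) : MonoidAlgebra ℤ H)}).radical := by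
    rw [Ideal.radical_eq_sInf, Ideal.mem_sInf]
    rintro J ⟨hJ1, hJ2⟩
    exact hw J hJ2 (hJ1 (Ideal.subset_span rfl))
  obtain ⟨k, hk⟩ := h1
  rw [Ideal.mem_span_singleton] at hk
  have h2 : k ≤ Q ^ k := (Nat.lt_pow_self (by omega)).le
  have h3 : ((p : ℕ) : MonoidAlgebra ℤ H) ∣ w ^ (Q ^ k) := dvd_trans hk (pow_dvd_pow _ h2)
  have h4 := pow_Q_iter p Q hQS k w
  have h5 := dvd_sub h3 h4
  rwa [sub_sub_cancel] at h5

end Frob

section Split

variable {H C : Type*} [CommGroup H] [Fintype H] [DecidableEq H] [CommGroup C] [Fintype C]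
  [DecidableEq C]

/-- slices of a function on `H × C` -/
noncomputable def slice (φ : H × C → ℤ) (j : C) : MonoidAlgebra ℤ H :=
  MonoidAlgebra.ofCoeff (Finsupp.equivFunOnFinite.symm fun h => φ (h, j))

omit [DecidableEq H] [CommGroup C] [Fintype C] [DecidableEq C] [CommGroup H] in
theorem coeff_slice (φ : H × C → ℤ) (j : C) (h : H) : (slice φ j).coeff h = φ (h, j) := by
  simp [slice]

/-- the element `∑ φ(h, j) h ⊗ j` -/
noncomputable def ef (φ : H × C → ℤ) : MonoidAlgebra (MonoidAlgebra ℤ H) C :=
  MonoidAlgebra.ofCoeff (Finsupp.equivFunOnFinite.symm fun j => slice φ j)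

/-- the conjugate element -/
noncomputable def eg (φ : H × C → ℤ) : MonoidAlgebra (MonoidAlgebra ℤ H) C :=
  MonoidAlgebra.ofCoeff (Finsupp.equivFunOnFinite.symm fun j => star' (slice φ j⁻¹))

theorem coeff_ef (φ : H × C → ℤ) (j : C) : (ef φ).coeff j = slice φ j := by simp [ef]

theorem coeff_eg (φ : H × C → ℤ) (j : C) : (eg φ).coeff j = star' (slice φ j⁻¹) := by simp [eg]

theorem conv {R G : Type*} [CommRing R] [CommGroup G] [Fintype G] (x y : MonoidAlgebra R G)
    (g : G) : (x * y).coeff g = ∑ h : G, x.coeff h * y.coeff (h⁻¹ * g) := by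
  rw [MonoidAlgebra.coeff_mul_apply_left, Finsupp.sum_fintype]
  intro i; simp

theorem coeff_prod (φ : H × C → ℤ) (h : H) (j : C) :
    ((ef φ * eg φ).coeff j).coeff h = ∑ x : H × C, φ x * φ (x * (h, j)⁻¹) := by
  rw [conv, MonoidAlgebra.coeff_sum, Finsupp.coe_finsetSum, Finset.sum_apply,
    Fintype.sum_prod_type_right]
  apply Finset.sum_congr rfl
  intro i _
  rw [conv]
  apply Finset.sum_congr rfl
  intro a _
  rw [coeff_ef, coeff_eg, coeff_slice, coeff_star', coeff_slice]
  congr 2
  ext
  · simp [mul_comm]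
  · simp [mul_comm]

/-- squares of the differences of two slices -/
theorem coeff_one_mul_star (w : MonoidAlgebra ℤ H) :
    (w * star' w).coeff 1 = ∑ h : H, w.coeff h ^ 2 := by
  rw [conv]
  apply Finset.sum_congr rfl
  intro h _
  rw [coeff_star', mul_one, inv_inv, sq]

theorem main_split (p r : ℕ) [hp : Fact p.Prime] (hp2 : p ≠ 2) (c : C)
    (hc : orderOf c = p ^ (r + 1)) (hgen : ∀ g : C, ∃ k : ℕ, c ^ k = g)
    (hcardC : Fintype.card C = p ^ (r + 1))
    (hH : ¬ p ∣ Nat.card H) (n : H) (hn : n ≠ 1) (hn2 : n * n = 1) (φ : H × C → ℤ)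
    (hφ : ∀ x, φ x = 1 ∨ φ x = -1) (hanti : ∀ x, φ ((n, 1) * x) = - φ x)
    (hcorr : ∀ y : H × C, y ≠ 1 → y ≠ (n, 1) → ∑ x : H × C, φ x * φ (x * y⁻¹) = 0) :
    1 ≤ r ∧ 2 * p < Fintype.card H ∧ ∀ k, ¬ ∀ h : H, h ^ (p ^ k) = h⁻¹ := by
  classical
  obtain ⟨Q, hQ, hQS⟩ := exists_Q (H := H) p hH
  have hp0 := hp.out.pos
  have hp1 := hp.out.one_lt
  have hpodd : Odd p := hp.out.odd_of_ne_two hp2
  have hpS : ∀ a : MonoidAlgebra ℤ H, ((p : ℕ) : MonoidAlgebra ℤ H) * a = 0 → a = 0 := by
    intro a ha
    ext h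
    have h2 := congrArg (fun z : MonoidAlgebra ℤ H => z.coeff h) ha
    simp only [coeff_natCast_mul, MonoidAlgebra.coeff_zero, Finsupp.coe_zero, Pi.zero_apply,
      mul_eq_zero] at h2
    rcases h2 with h3 | h3
    · exact absurd h3 (by exact_mod_cast hp.out.ne_zero)
    · simpa using h3
  have hsq : ∀ x, φ x * φ x = 1 := by
    intro x
    rcases hφ x with h | h <;> rw [h] <;> norm_num
  set N : ℕ := Fintype.card (H × C) with hN
  have hNprod : N = Fintype.card H * p ^ (r + 1) := by
    rw [hN, Fintype.card_prod, hcardC]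
  have hn' : ((n, 1) : H × C) ≠ 1 := by
    intro h
    exact hn (congrArg Prod.fst h)
  -- the product
  have hprod : ef φ * eg φ = MonoidAlgebra.single 1
      ((N : MonoidAlgebra ℤ H) * (1 - MonoidAlgebra.single n 1)) := by
    ext j h
    rw [coeff_prod, MonoidAlgebra.coeff_single]
    have hv : ((N : MonoidAlgebra ℤ H) * (1 - MonoidAlgebra.single n 1)).coeff h =
        (N : ℤ) * ((if h = 1 then 1 else 0) - (if h = n then 1 else 0)) := by
      rw [coeff_natCast_mul, MonoidAlgebra.coeff_sub, Finsupp.sub_apply,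
        MonoidAlgebra.one_def, MonoidAlgebra.coeff_single, MonoidAlgebra.coeff_single,
        Finsupp.single_apply, Finsupp.single_apply]
      simp only [eq_comm]
    by_cases hj : j = 1
    · subst hj
      rw [Finsupp.single_eq_same, hv]
      by_cases hh : h = 1
      · subst hh
        rw [if_pos rfl, if_neg (fun hh => hn hh.symm)]
        have : ∀ x : H × C, φ x * φ (x * ((1 : H), (1 : C))⁻¹) = 1 := by
          intro x
          have h1 : x * ((1 : H), (1 : C))⁻¹ = x := by
            ext <;> simp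
          rw [h1, hsq]
        rw [Finset.sum_congr rfl (fun x _ => this x)]
        simp [hN]
      · by_cases hhn : h = n
        · subst hhn
          rw [if_pos rfl, if_neg hh]
          have : ∀ x : H × C, φ x * φ (x * (h, (1 : C))⁻¹) = -1 := by
            intro x
            have h1 : x * (h, (1 : C))⁻¹ = (h, 1) * x := by
              ext
              · simp only [Prod.fst_mul, Prod.fst_inv]
                rw [mul_comm]
                congr 1
                exact inv_eq_of_mul_eq_one_left hn2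
              · simp
            rw [h1, hanti, mul_neg, hsq]
          rw [Finset.sum_congr rfl (fun x _ => this x)]
          simp [hN]
        · rw [if_neg hh, if_neg hhn]
          rw [hcorr (h, 1) (by
            intro h1; exact hh (congrArg Prod.fst h1)) (by
            intro h1; exact hhn (congrArg Prod.fst h1))]
          simp
    · have h1 : (Finsupp.single (1 : C)
          ((N : MonoidAlgebra ℤ H) * (1 - MonoidAlgebra.single n 1))) j = 0 := by
        rw [Finsupp.single_eq_of_ne]
        exact hj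
      rw [h1]
      rw [hcorr (h, j) (by
            intro h1; exact hj (congrArg Prod.snd h1)) (by
            intro h1; exact hj (congrArg Prod.snd h1))]
      simp
  have hc1 : c ^ (p ^ (r + 1)) = 1 := by rw [← hc]; exact pow_orderOf_eq_one c
  have hc' : c ^ (p ^ r) ≠ 1 := by
    intro h
    have h1 := orderOf_dvd_of_pow_eq_one h
    rw [hc] at h1
    have h2 := Nat.le_of_dvd (pow_pos hp0 r) h1
    have h3 : p ^ r < p ^ (r + 1) := Nat.pow_lt_pow_right hp1 (Nat.lt_succ_self r)
    omega
  -- Step 1
  have step1 : 1 ≤ r := by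
    by_contra hr
    have hr : r = 0 := by omega
    have hdiv : ((p : ℕ) : MonoidAlgebra ℤ H) ∣ slice φ 1 * star' (slice φ 1) := by
      apply dvd_of_forall_prime p Q hQ hQS
      intro M hM hpM
      by_cases hu : (1 - MonoidAlgebra.single n 1 : MonoidAlgebra ℤ H) ∈ M
      · -- the slices are antiinvariant
        have h1 : slice φ 1 = - (MonoidAlgebra.single n 1 * slice φ 1) := by
          ext h
          rw [MonoidAlgebra.coeff_neg, Finsupp.neg_apply, MonoidAlgebra.coeff_single_mul_apply,
            coeff_slice, coeff_slice, one_mul]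
          have h2 := hanti (n⁻¹ * h, 1)
          have h3 : ((n, 1) : H × C) * (n⁻¹ * h, 1) = (h, 1) := by ext <;> simp
          rw [h3] at h2
          rw [h2]
        have h2 : (2 : MonoidAlgebra ℤ H) * slice φ 1 ∈ M := by
          have h3 : (2 : MonoidAlgebra ℤ H) * slice φ 1 =
              (1 - MonoidAlgebra.single n 1) * slice φ 1 := by
            rw [two_mul]
            nth_rewrite 2 [h1]
            ring
          rw [h3]
          exact M.mul_mem_right _ hu
        rcases hM.mem_or_mem h2 with h3 | h3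
        · exfalso
          obtain ⟨k, hk⟩ := hpodd
          apply hM.ne_top
          rw [Ideal.eq_top_iff_one]
          have h4 : (1 : MonoidAlgebra ℤ H) = ((p : ℕ) : MonoidAlgebra ℤ H) - 2 * (k : ℕ) := by
            rw [hk]; push_cast; ring
          rw [h4]
          exact M.sub_mem hpM (M.mul_mem_right _ h3)
        · exact M.mul_mem_right _ h3
      · have hu' : ((Fintype.card H : ℕ) : MonoidAlgebra ℤ H) *
            (1 - MonoidAlgebra.single n 1) ∉ M := by
          intro h1
          rcases hM.mem_or_mem h1 with h2 | h2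
          · apply hM.ne_top
            rw [Ideal.eq_top_iff_one]
            have hcop : IsCoprime (p : ℤ) (Fintype.card H : ℤ) := by
              rw [Nat.isCoprime_iff_coprime]
              rw [Nat.card_eq_fintype_card] at hH
              exact (Nat.Prime.coprime_iff_not_dvd hp.out).2 hH
            obtain ⟨a, b, hab⟩ := hcop
            have h3 : (1 : MonoidAlgebra ℤ H) = (a : MonoidAlgebra ℤ H) * (p : ℕ) +
                (b : MonoidAlgebra ℤ H) * (Fintype.card H : ℕ) := by
              exact_mod_cast congrArg (fun z : ℤ => (z : MonoidAlgebra ℤ H)) hab.symm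
            rw [h3]
            exact M.add_mem (M.mul_mem_left _ hpM) (M.mul_mem_left _ h2)
          · exact hu h2
        have hA := lemmaA p r c hc1 hgen hpS Q hQ hQS M hpM hr (by
          intro i hi1 hi2 h
          have h1 := orderOf_dvd_of_pow_eq_one h
          rw [hc, hr] at h1
          simp only [zero_add, pow_one] at h1
          exact absurd (Nat.le_of_dvd hi1 h1) (by omega)) _ hu' (ef φ) (eg φ) (by
          have h2 : ((p : ℕ) : MonoidAlgebra (MonoidAlgebra ℤ H) C) =
              MonoidAlgebra.single 1 ((p : ℕ) : MonoidAlgebra ℤ H) := MonoidAlgebra.natCast_def p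
          rw [hprod, hNprod, hr, h2, MonoidAlgebra.single_mul_single, one_mul]
          congr 1
          push_cast
          ring)
        rcases hA with h1 | h1
        · have h2 := h1 1
          rw [coeff_ef] at h2
          exact M.mul_mem_right _ h2
        · have h2 := h1 1
          rw [coeff_eg, inv_one] at h2
          exact M.mul_mem_left _ h2
    obtain ⟨w, hw⟩ := hdiv
    have h1 := congrArg (fun z : MonoidAlgebra ℤ H => z.coeff 1) hw
    simp only [coeff_natCast_mul, coeff_one_mul_star, coeff_slice, sq, hsq] at h1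
    simp only [Finset.sum_const, Finset.card_univ, nsmul_eq_mul, mul_one] at h1
    apply hH
    rw [Nat.card_eq_fintype_card]
    have h2 : (p : ℤ) ∣ (Fintype.card H : ℤ) := ⟨_, h1⟩
    exact_mod_cast h2
  -- Step 2
  set z : C := c ^ (p ^ r) with hz
  set δ : C → MonoidAlgebra ℤ H := fun j => slice φ (z⁻¹ * j) - slice φ j with hδ
  have hB : ∀ M : Ideal (MonoidAlgebra ℤ H), M.IsPrime → ((p : ℕ) : MonoidAlgebra ℤ H) ∈ M →
      ∀ j, δ j ∈ M ∨ star' (δ j) ∈ M := by
    intro M hM hpM
    have h1 := lemmaB p r c hc1 hc' hgen hpS Q hQ hQS M hpM (ef φ) (eg φ)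
      (MonoidAlgebra.single 1 (((Fintype.card H * p ^ (r - 1) : ℕ) : MonoidAlgebra ℤ H) *
        (1 - MonoidAlgebra.single n 1))) (by
        rw [hprod, hNprod]
        congr 1
        have h2 : ((p : ℕ) : MonoidAlgebra (MonoidAlgebra ℤ H) C) ^ 2 =
            MonoidAlgebra.single 1 (((p : ℕ) : MonoidAlgebra ℤ H) ^ 2) := by
          rw [MonoidAlgebra.natCast_def, MonoidAlgebra.single_pow, one_pow]
        rw [h2, MonoidAlgebra.single_mul_single, one_mul]
        congr 1
        have h3 : Fintype.card H * p ^ (r + 1) = p ^ 2 * (Fintype.card H * p ^ (r - 1)) := by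
          obtain ⟨s, rfl⟩ : ∃ s, r = s + 1 := ⟨r - 1, by omega⟩
          rw [Nat.add_sub_cancel]; ring
        rw [h3]
        push_cast
        ring)
    have hcf : ∀ j, ((el (MonoidAlgebra ℤ H) z - 1) * ef φ).coeff j = δ j := by
      intro j
      rw [sub_mul, one_mul, MonoidAlgebra.coeff_sub, Finsupp.sub_apply]
      unfold el
      rw [MonoidAlgebra.coeff_single_mul_apply, one_mul, coeff_ef, coeff_ef]
    have hcg : ∀ j, ((el (MonoidAlgebra ℤ H) z - 1) * eg φ).coeff j =
        - star' (δ (z * j⁻¹)) := by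
      intro j
      rw [sub_mul, one_mul, MonoidAlgebra.coeff_sub, Finsupp.sub_apply]
      unfold el
      rw [MonoidAlgebra.coeff_single_mul_apply, one_mul, coeff_eg, coeff_eg, hδ]
      simp only [map_sub, neg_sub]
      congr 3
      · simp [mul_comm]
      · simp
    rcases h1 with h1 | h1
    · intro j
      left
      rw [← hcf]; exact h1 j
    · intro j
      right
      have h2 := h1 (j⁻¹ * z)
      rw [← hz, hcg] at h2
      have h3 : z * (j⁻¹ * z)⁻¹ = j := by
        rw [mul_inv_rev, inv_inv]; simp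
      rw [h3] at h2
      have := M.neg_mem h2
      rwa [neg_neg] at this
  -- not all the differences vanish
  have hnz : ¬ ∀ h j, φ (h, z⁻¹ * j) = φ (h, j) := by
    intro hall
    have h1 := hcorr (1, z) (by
      intro h; exact hc' (congrArg Prod.snd h)) (by
      intro h; exact hc' (congrArg Prod.snd h))
    have h2 : ∀ x : H × C, φ x * φ (x * ((1 : H), z)⁻¹) = 1 := by
      rintro ⟨a, b⟩
      have h3 : ((a, b) : H × C) * ((1 : H), z)⁻¹ = (a, z⁻¹ * b) := by
        ext
        · simp
        · simp [mul_comm]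
      rw [h3, hall, hsq]
    rw [Finset.sum_congr rfl (fun x _ => h2 x)] at h1
    simp only [Finset.sum_const, Finset.card_univ, nsmul_eq_mul, mul_one] at h1
    have h3 : (Fintype.card (H × C) : ℤ) ≠ 0 := by
      exact_mod_cast Fintype.card_ne_zero
    exact h3 h1
  refine ⟨step1, ?_, ?_⟩
  · by_contra hlt
    apply hnz
    intro h j
    -- the number of disagreements
    have hdiv : ((p : ℕ) : MonoidAlgebra ℤ H) ∣ δ j * star' (δ j) := by
      apply dvd_of_forall_prime p Q hQ hQS
      intro M hM hpM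
      rcases hB M hM hpM j with h1 | h1
      · exact M.mul_mem_right _ h1
      · exact M.mul_mem_left _ h1
    obtain ⟨w, hw⟩ := hdiv
    have h1 := congrArg (fun z : MonoidAlgebra ℤ H => z.coeff 1) hw
    simp only [coeff_natCast_mul, coeff_one_mul_star] at h1
    set D : Finset H := Finset.univ.filter fun h => φ (h, z⁻¹ * j) ≠ φ (h, j) with hD
    have h2 : ∑ h : H, (δ j).coeff h ^ 2 = 4 * (D.card : ℤ) := by
      have h3 : ∀ h : H, (δ j).coeff h ^ 2 = if h ∈ D then 4 else 0 := by
        intro h
        rw [hδ]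
        simp only [MonoidAlgebra.coeff_sub, Finsupp.sub_apply, coeff_slice, hD, Finset.mem_filter,
          Finset.mem_univ, true_and]
        rcases hφ (h, z⁻¹ * j) with h4 | h4 <;> rcases hφ (h, j) with h5 | h5 <;>
          rw [h4, h5] <;> norm_num
      rw [Finset.sum_congr rfl (fun h _ => h3 h), Finset.sum_ite_mem, Finset.univ_inter,
        Finset.sum_const]
      simp; ring
    rw [h2] at h1
    have hpD : p ∣ D.card := by
      have h3 : (p : ℤ) ∣ 4 * (D.card : ℤ) := ⟨_, h1⟩
      have h4 : p ∣ 4 * D.card := by exact_mod_cast h3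
      have h5 : Nat.Coprime p 4 := by
        have : Nat.Coprime p (2 ^ 2) := Nat.Coprime.pow_right 2
          ((Nat.coprime_primes hp.out Nat.prime_two).2 hp2)
        simpa using this
      exact h5.dvd_of_dvd_mul_left h4
    have heven : Even D.card := by
      have h3 : ∑ h ∈ D, (1 : ZMod 2) = 0 := by
        apply Finset.sum_involution (fun h _ => n * h)
        · intro a _; decide
        · intro a _ _ h4
          exact hn (by simpa using h4)
        · intro a ha
          rw [hD, Finset.mem_filter] at ha ⊢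
          refine ⟨Finset.mem_univ _, ?_⟩
          have h4 := hanti (a, z⁻¹ * j)
          have h5 := hanti (a, j)
          have h6 : ((n, 1) : H × C) * (a, z⁻¹ * j) = (n * a, z⁻¹ * j) := by ext <;> simp
          have h7 : ((n, 1) : H × C) * (a, j) = (n * a, j) := by ext <;> simp
          rw [h6] at h4
          rw [h7] at h5
          rw [h4, h5]
          intro h8
          exact ha.2 (neg_injective h8)
        · intro a _
          rw [← mul_assoc, hn2, one_mul]
      rw [Finset.sum_const, nsmul_eq_mul, mul_one] at h3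
      exact (ZMod.natCast_eq_zero_iff_even).1 h3
    have hle : D.card ≤ Fintype.card H := Finset.card_le_univ _
    have hD0 : D.card = 0 := by
      by_contra hne
      obtain ⟨m, hm⟩ := hpD
      have hm0 : m ≠ 0 := by rintro rfl; simp at hm; exact hne (by simp [hm])
      have hme : Even m := by
        rw [hm, Nat.even_mul] at heven
        rcases heven with h | h
        · exact absurd h (Nat.not_even_iff_odd.2 hpodd)
        · exact h
      have hm2 : 2 ≤ m := by
        obtain ⟨k, hk⟩ := hme
        omega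
      have h5 : p * 2 ≤ p * m := Nat.mul_le_mul_left p hm2
      have h6 : Fintype.card H = p * 2 := by omega
      apply hH
      rw [Nat.card_eq_fintype_card, h6]
      exact Dvd.intro 2 rfl
    rw [Finset.card_eq_zero, hD, Finset.filter_eq_empty_iff] at hD0
    have := hD0 (Finset.mem_univ h)
    simpa using this
  · intro k hk
    apply hnz
    have hdiv : ∀ j, ((p : ℕ) : MonoidAlgebra ℤ H) ∣ δ j := by
      intro j
      apply dvd_of_forall_prime p Q hQ hQS
      intro M hM hpM
      rcases hB M hM hpM j with h1 | h1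
      · exact h1
      · have h2 := frob_star p k hk (δ j)
        obtain ⟨w, hw⟩ := h2
        have h3 : δ j ^ (p ^ k) ∈ M := by
          have h4 : δ j ^ (p ^ k) = ((p : ℕ) : MonoidAlgebra ℤ H) * w + star' (δ j) := by
            rw [← hw]; ring
          rw [h4]
          exact M.add_mem (M.mul_mem_right _ hpM) h1
        exact hM.mem_of_pow_mem _ h3
    intro h j
    obtain ⟨w, hw⟩ := hdiv j
    have h1 := congrArg (fun z : MonoidAlgebra ℤ H => z.coeff h) hw
    simp only [coeff_natCast_mul, hδ, MonoidAlgebra.coeff_sub, Finsupp.sub_apply,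
      coeff_slice] at h1
    have hp3 : 3 ≤ p := by
      have := hp.out.two_le
      omega
    have h2 : (p : ℤ) ∣ φ (h, z⁻¹ * j) - φ (h, j) := ⟨_, h1⟩
    have h3 : |φ (h, z⁻¹ * j) - φ (h, j)| < (p : ℤ) := by
      have : (3 : ℤ) ≤ p := by exact_mod_cast hp3
      rcases hφ (h, z⁻¹ * j) with h4 | h4 <;> rcases hφ (h, j) with h5 | h5 <;>
          rw [h4, h5] <;> norm_num <;> linarith
    have h4 := Int.eq_zero_of_abs_lt_dvd h2 h3
    linarith

end Split

end Pool.Agent.HE996
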